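import Mathlib

set_option autoImplicit false

/-!
The real-variable computation behind the modulus of continuity.
-/

namespace Pool.Agent.W780.FA

open Filter Topology

/-- `N_j = 2 ^ (2 ^ j)`. -/
def NN (j : ℕ) : ℕ := 2 ^ (2 ^ j)

lemma NN_pos (j : ℕ) : 0 < NN j := by unfold NN; positivity

lemma NN_succ (j : ℕ) : NN (j + 1) = NN j * NN j := by
  unfold NN
  rw [← pow_add, pow_succ, mul_two]

lemma two_le_NN (j : ℕ) : 2 ≤ NN j := by
  unfold NN
  calc 2 = 2 ^ 1 := by norm_num
    _ ≤ 2 ^ (2 ^ j) := Nat.pow_le_pow_right (by norm_num) Nat.one_le_two_pow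

lemma NN_mono : Monotone NN := by
  intro a b h
  unfold NN
  exact Nat.pow_le_pow_right (by norm_num) (Nat.pow_le_pow_right (by norm_num) h)

lemma two_mul_NN_le {i j : ℕ} (h : i < j) : 2 * NN i ≤ NN j := by
  calc 2 * NN i ≤ NN i * NN i := Nat.mul_le_mul_right _ (two_le_NN i)
    _ = NN (i + 1) := (NN_succ i).symm
    _ ≤ NN j := NN_mono h

lemma lt_NN (j : ℕ) : j < NN j := by
  unfold NN
  calc j < 2 ^ j := Nat.lt_two_pow_self
    _ < 2 ^ (2 ^ j) := Nat.lt_two_pow_self

lemma log_NN (j : ℕ) : Real.log (NN j) ≤ 2 ^ j := by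
  unfold NN
  push_cast
  rw [Real.log_pow]
  push_cast
  have : Real.log 2 ≤ 1 := by
    have := Real.log_two_lt_d9
    linarith
  nlinarith [show (0 : ℝ) < 2 ^ j by positivity]

/-- `e ^ (e ^ e)`. -/
noncomputable def tripleE : ℝ := Real.exp (Real.exp (Real.exp 1))

lemma tripleE_pos : 0 < tripleE := Real.exp_pos _

lemma loglog_bound {J : ℕ} {δ : ℝ} (h0 : 0 < δ) (h1 : δ ≤ 1) (hJ : 1 / δ ≤ NN (J + 1))
    (hE : tripleE ≤ NN J) :
    1 ≤ Real.log (Real.log (Real.log (tripleE / δ))) ∧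
    Real.log (Real.log (Real.log (tripleE / δ))) ≤ Real.log (J + 2) := by
  have hge : tripleE ≤ tripleE / δ := by
    rw [le_div_iff₀ h0]
    have := tripleE_pos
    nlinarith
  have g1 : Real.exp (Real.exp 1) ≤ Real.log (tripleE / δ) := by
    rw [Real.le_log_iff_exp_le (by have := tripleE_pos; positivity)]
    exact hge
  have g1p : 0 < Real.log (tripleE / δ) := lt_of_lt_of_le (Real.exp_pos _) g1
  have g2 : Real.exp 1 ≤ Real.log (Real.log (tripleE / δ)) := by
    rw [Real.le_log_iff_exp_le g1p]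
    exact g1
  have g2p : 0 < Real.log (Real.log (tripleE / δ)) := lt_of_lt_of_le (Real.exp_pos _) g2
  refine ⟨?_, ?_⟩
  · rw [Real.le_log_iff_exp_le g2p]
    exact g2
  · apply Real.log_le_log g2p
    have h2 : tripleE / δ ≤ NN (J + 2) := by
      have e1 : tripleE / δ = tripleE * (1 / δ) := by ring
      rw [e1, NN_succ (J + 1)]
      push_cast
      apply mul_le_mul _ hJ (by positivity) (by positivity)
      refine hE.trans ?_
      exact_mod_cast NN_mono (Nat.le_succ J)
    have h3 : Real.log (tripleE / δ) ≤ 2 ^ (J + 2) := by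
      refine (Real.log_le_log (by have := tripleE_pos; positivity) h2).trans ?_
      exact log_NN (J + 2)
    refine (Real.log_le_log g1p h3).trans ?_
    rw [Real.log_pow]
    push_cast
    have : Real.log 2 ≤ 1 := by
      have := Real.log_two_lt_d9
      linarith
    nlinarith [show (0 : ℝ) ≤ (J : ℝ) by positivity]

/-- Decay of the low-frequency contribution. -/
lemma low_decay : Tendsto (fun m : ℕ => (2 : ℝ) ^ (m + 2) * Real.log (m + 3) / NN m) atTop (𝓝 0) := by
  have h1 : Tendsto (fun n : ℕ => ((n : ℝ) ^ 2) / (2 : ℝ) ^ n) atTop (𝓝 0) :=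
    tendsto_pow_const_div_const_pow_of_one_lt 2 (by norm_num)
  have h2 : Tendsto (fun m : ℕ => 2 ^ m) atTop (atTop : Filter ℕ) :=
    tendsto_pow_atTop_atTop_of_one_lt (by norm_num)
  have h3 := (h1.comp h2).const_mul 12
  rw [mul_zero] at h3
  refine squeeze_zero (fun m => ?_) (fun m => ?_) h3
  · have : 0 ≤ Real.log ((m : ℝ) + 3) := Real.log_nonneg (by
      have : (0 : ℝ) ≤ m := by positivity
      linarith)
    positivity
  · simp only [Function.comp]
    have hy : (1 : ℝ) ≤ (2 : ℝ) ^ m := one_le_pow₀ (by norm_num)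
    have hlog : Real.log ((m : ℝ) + 3) ≤ 3 * (2 : ℝ) ^ m := by
      have h4 : Real.log ((m : ℝ) + 3) ≤ (m : ℝ) + 3 - 1 := Real.log_le_sub_one_of_pos (by positivity)
      have h5 : (m : ℝ) ≤ 2 ^ m := by exact_mod_cast (Nat.lt_two_pow_self (n := m)).le
      linarith
    unfold NN
    push_cast
    rw [← mul_div_assoc]
    apply div_le_div_of_nonneg_right _ (by positivity)
    have : (2 : ℝ) ^ (m + 2) = 4 * 2 ^ m := by ring
    rw [this]
    nlinarith

/-- Given small `δ`, locate it between consecutive `1 / N_j`. -/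
lemma locate {δ : ℝ} {j₀ : ℕ} (h : (NN j₀ : ℝ) ≤ 1 / δ) :
    ∃ J, j₀ ≤ J ∧ (NN J : ℝ) ≤ 1 / δ ∧ 1 / δ < NN (J + 1) := by
  have hex : ∃ j : ℕ, 1 / δ < NN j := by
    obtain ⟨n, hn⟩ := exists_nat_gt (1 / δ)
    exact ⟨n, hn.trans (by exact_mod_cast lt_NN n)⟩
  classical
  set m := Nat.find hex with hm
  have h1 : 1 / δ < NN m := Nat.find_spec hex
  have h2 : j₀ < m := by
    by_contra hcon
    push Not at hcon
    have : (NN m : ℝ) ≤ NN j₀ := by exact_mod_cast NN_mono hcon
    linarith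
  obtain ⟨J, hJ⟩ : ∃ J, m = J + 1 := ⟨m - 1, by omega⟩
  refine ⟨J, by omega, ?_, by rw [← hJ]; exact h1⟩
  have h3 : ¬ (1 / δ < NN J) := Nat.find_min hex (by omega)
  linarith

lemma final_identity {A P L : ℝ} (B ε : ℝ) (hA : 0 < A) (hP : 0 < P) (hL : 0 < L) :
    (8 * B / A + ε / (4 * L * P)) * (P * L) = (1 / 2) * (16 * B * (P * L / A)) + ε / 4 := by
  field_simp
  ring

theorem asymp (c : ℕ → ℝ) (hc0 : ∀ j, 0 ≤ c j)
    (hc : Tendsto (fun j : ℕ => c j * Real.log (j + 2)) atTop (𝓝 0)) :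
    Tendsto (fun δ : ℝ => (∑' j : ℕ, c j / 2 ^ j * min 2 (4 * (NN j : ℝ) * δ)) *
      (Real.log (1 / δ) * Real.log (Real.log (Real.log (tripleE / δ))))) (𝓝[>] 0) (𝓝 0) := by
  -- a bound for `c`
  obtain ⟨B, hB⟩ : ∃ B : ℝ, ∀ j, c j ≤ B := by
    obtain ⟨B, hB⟩ := hc.bddAbove_range
    refine ⟨B / Real.log 2, fun j => ?_⟩
    have h1 : c j * Real.log (j + 2) ≤ B := hB ⟨j, rfl⟩
    have hl2 : 0 < Real.log 2 := Real.log_pos (by norm_num)
    have h2 : Real.log 2 ≤ Real.log ((j : ℝ) + 2) :=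
      Real.log_le_log (by norm_num) (by
        have : (0 : ℝ) ≤ j := by positivity
        linarith)
    rw [le_div_iff₀ hl2]
    exact (mul_le_mul_of_nonneg_left h2 (hc0 j)).trans h1
  have hB0 : 0 ≤ B := (hc0 0).trans (hB 0)
  have hterm0 : ∀ δ : ℝ, 0 < δ → ∀ j : ℕ, 0 ≤ c j / 2 ^ j * min 2 (4 * (NN j : ℝ) * δ) := by
    intro δ hδ j
    have := hc0 j
    have h2 : 0 ≤ min 2 (4 * (NN j : ℝ) * δ) := le_min (by norm_num) (by positivity)
    positivity
  have hgeom : Summable (fun j : ℕ => (1 / 2 : ℝ) ^ j) := summable_geometric_two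
  have hsumm : ∀ δ : ℝ, 0 < δ →
      Summable (fun j : ℕ => c j / 2 ^ j * min 2 (4 * (NN j : ℝ) * δ)) := by
    intro δ hδ
    refine Summable.of_nonneg_of_le (hterm0 δ hδ) (fun j => ?_) (hgeom.mul_left (2 * B))
    calc c j / 2 ^ j * min 2 (4 * (NN j : ℝ) * δ) ≤ B / 2 ^ j * 2 := by
          apply mul_le_mul _ (min_le_left _ _) (le_min (by norm_num) (by positivity))
            (by positivity)
          exact div_le_div_of_nonneg_right (hB j) (by positivity)
      _ = 2 * B * (1 / 2) ^ j := by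
          rw [one_div, inv_pow]
          ring
  rw [Metric.tendsto_nhds]
  intro ε hε
  -- thresholds
  have hlow := low_decay.const_mul (16 * B)
  rw [mul_zero] at hlow
  have e1 : ∀ᶠ m : ℕ in atTop, 16 * B * ((2 : ℝ) ^ (m + 2) * Real.log (m + 3) / NN m) < ε / 2 :=
    hlow.eventually_lt_const (by positivity)
  have e2 : ∀ᶠ j : ℕ in atTop, c j * Real.log (j + 2) < ε / 32 :=
    hc.eventually_lt_const (by positivity)
  have e3 : ∀ᶠ j : ℕ in atTop, tripleE ≤ NN j := by
    obtain ⟨n, hn⟩ := exists_nat_ge tripleE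
    filter_upwards [eventually_ge_atTop n] with j hj
    refine hn.trans ?_
    have : n ≤ NN j := hj.trans (lt_NN j).le
    exact_mod_cast this
  obtain ⟨m₁, hm₁⟩ := eventually_atTop.mp e1
  obtain ⟨m₂, hm₂⟩ := eventually_atTop.mp e2
  obtain ⟨m₃, hm₃⟩ := eventually_atTop.mp e3
  set j₀ := max m₁ (max m₂ m₃) + 1 with hj₀
  have hδev : ∀ᶠ δ : ℝ in 𝓝[>] 0, δ < 1 / NN j₀ := by
    apply eventually_nhdsWithin_of_eventually_nhds
    exact eventually_lt_nhds (by have := NN_pos j₀; positivity)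
  filter_upwards [hδev, self_mem_nhdsWithin] with δ hδ1 hδ0
  have hδ0' : 0 < δ := hδ0
  have hNj₀ : (0 : ℝ) < NN j₀ := by exact_mod_cast NN_pos j₀
  have hδle1 : δ ≤ 1 := by
    refine hδ1.le.trans ?_
    rw [div_le_one hNj₀]
    exact_mod_cast NN_pos j₀
  obtain ⟨J, hJ0, hJ1, hJ2⟩ := locate (δ := δ) (j₀ := j₀) (by
    rw [le_div_iff₀ hδ0']
    rw [lt_div_iff₀ hNj₀] at hδ1
    linarith)
  obtain ⟨m, rfl⟩ : ∃ m, J = m + 1 := ⟨J - 1, by omega⟩
  have hm1 : m₁ ≤ m := by omega
  have hm2 : m₂ ≤ m := by omega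
  have hm3 : m₃ ≤ m := by omega
  have hNm : (0 : ℝ) < NN m := by exact_mod_cast NN_pos m
  have hlogpos : 0 < Real.log ((m : ℝ) + 3) := Real.log_pos (by
    have : (0 : ℝ) ≤ m := by positivity
    linarith)
  obtain ⟨hL1, hL2⟩ := loglog_bound (J := m + 1) hδ0' hδle1 hJ2.le
    (hm₃ (m + 1) (by omega))
  have hcast : ((m + 1 : ℕ) : ℝ) + 2 = m + 3 := by push_cast; ring
  rw [hcast] at hL2
  have hlog1 : Real.log (1 / δ) ≤ 2 ^ (m + 2) :=
    (Real.log_le_log (by positivity) hJ2.le).trans (log_NN (m + 2))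
  have hlog0 : 0 ≤ Real.log (1 / δ) := Real.log_nonneg (by
    rw [le_div_iff₀ hδ0']; linarith)
  -- the sum
  have hS : ∑' j : ℕ, c j / 2 ^ j * min 2 (4 * (NN j : ℝ) * δ) ≤
      8 * B / NN m + ε / (4 * Real.log (m + 3) * 2 ^ (m + 2)) := by
    rw [← (hsumm δ hδ0').sum_add_tsum_nat_add (m + 1)]
    apply add_le_add
    · calc ∑ j ∈ Finset.range (m + 1), c j / 2 ^ j * min 2 (4 * (NN j : ℝ) * δ)
          ≤ ∑ j ∈ Finset.range (m + 1), 4 * B / NN m * (1 / 2) ^ j := by
            apply Finset.sum_le_sum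
            intro j hj
            rw [Finset.mem_range] at hj
            have h1 : (NN j : ℝ) ≤ NN m := by exact_mod_cast NN_mono (by omega : j ≤ m)
            have h2 : (NN m : ℝ) * NN m * δ ≤ 1 := by
              rw [NN_succ] at hJ1
              push_cast at hJ1
              rwa [le_div_iff₀ hδ0'] at hJ1
            have h3 : 4 * (NN j : ℝ) * δ ≤ 4 / NN m := by
              rw [le_div_iff₀ hNm]
              calc 4 * (NN j : ℝ) * δ * NN m ≤ 4 * (NN m : ℝ) * δ * NN m := by gcongr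
                _ = 4 * ((NN m : ℝ) * NN m * δ) := by ring
                _ ≤ 4 * 1 := by linarith
                _ = 4 := by norm_num
            calc c j / 2 ^ j * min 2 (4 * (NN j : ℝ) * δ) ≤ B / 2 ^ j * (4 / NN m) := by
                  apply mul_le_mul _ ((min_le_right _ _).trans h3)
                    (le_min (by norm_num) (by positivity)) (by positivity)
                  exact div_le_div_of_nonneg_right (hB j) (by positivity)
              _ = 4 * B / NN m * (1 / 2) ^ j := by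
                  rw [one_div, inv_pow]
                  ring
        _ = 4 * B / NN m * ∑ j ∈ Finset.range (m + 1), (1 / 2) ^ j := by rw [Finset.mul_sum]
        _ ≤ 4 * B / NN m * 2 := by
            apply mul_le_mul_of_nonneg_left _ (by positivity)
            have := hgeom.sum_le_tsum (Finset.range (m + 1)) (fun i _ => by positivity)
            rwa [tsum_geometric_two] at this
        _ = 8 * B / NN m := by ring
    · have hb : ∀ j : ℕ, c (j + (m + 1)) / 2 ^ (j + (m + 1)) *
          min 2 (4 * (NN (j + (m + 1)) : ℝ) * δ) ≤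
          ε / (16 * Real.log (m + 3) * 2 ^ (m + 1)) * (1 / 2) ^ j := by
        intro j
        have h1 : c (j + (m + 1)) * Real.log (m + 3) ≤ ε / 32 := by
          refine le_trans ?_ (hm₂ (j + (m + 1)) (by omega)).le
          apply mul_le_mul_of_nonneg_left _ (hc0 _)
          apply Real.log_le_log (by positivity)
          push_cast
          have : (0 : ℝ) ≤ j := by positivity
          linarith
        have h2 : c (j + (m + 1)) ≤ ε / (32 * Real.log (m + 3)) := by
          rw [le_div_iff₀ (by positivity)]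
          linarith
        calc c (j + (m + 1)) / 2 ^ (j + (m + 1)) * min 2 (4 * (NN (j + (m + 1)) : ℝ) * δ)
            ≤ (ε / (32 * Real.log (m + 3))) / 2 ^ (j + (m + 1)) * 2 := by
              apply mul_le_mul _ (min_le_left _ _)
                (le_min (by norm_num) (by positivity)) (by positivity)
              exact div_le_div_of_nonneg_right h2 (by positivity)
          _ = ε / (16 * Real.log (m + 3) * 2 ^ (m + 1)) * (1 / 2) ^ j := by
              rw [one_div, inv_pow, pow_add]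
              field_simp
              ring
      have hsum2 : Summable (fun j : ℕ => c (j + (m + 1)) / 2 ^ (j + (m + 1)) *
          min 2 (4 * (NN (j + (m + 1)) : ℝ) * δ)) :=
        (summable_nat_add_iff (m + 1)).mpr (hsumm δ hδ0')
      calc ∑' j : ℕ, c (j + (m + 1)) / 2 ^ (j + (m + 1)) *
          min 2 (4 * (NN (j + (m + 1)) : ℝ) * δ)
          ≤ ∑' j : ℕ, ε / (16 * Real.log (m + 3) * 2 ^ (m + 1)) * (1 / 2) ^ j :=
            hsum2.tsum_le_tsum hb (hgeom.mul_left _)
        _ = ε / (16 * Real.log (m + 3) * 2 ^ (m + 1)) * 2 := by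
            rw [tsum_mul_left, tsum_geometric_two]
        _ = ε / (4 * Real.log (m + 3) * 2 ^ (m + 2)) := by
            rw [pow_succ (2 : ℝ) (m + 1)]
            field_simp
            ring
  have hS0 : 0 ≤ ∑' j : ℕ, c j / 2 ^ j * min 2 (4 * (NN j : ℝ) * δ) :=
    tsum_nonneg (hterm0 δ hδ0')
  rw [Real.dist_eq, sub_zero, abs_of_nonneg (by positivity)]
  calc (∑' j : ℕ, c j / 2 ^ j * min 2 (4 * (NN j : ℝ) * δ)) *
      (Real.log (1 / δ) * Real.log (Real.log (Real.log (tripleE / δ))))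
      ≤ (8 * B / NN m + ε / (4 * Real.log (m + 3) * 2 ^ (m + 2))) *
        (2 ^ (m + 2) * Real.log (m + 3)) := by
        apply mul_le_mul hS _ (by positivity) (by positivity)
        apply mul_le_mul hlog1 hL2 (by linarith) (by positivity)
    _ = (1 / 2) * (16 * B * ((2 : ℝ) ^ (m + 2) * Real.log (m + 3) / NN m)) + ε / 4 :=
        final_identity B ε hNm (by positivity) hlogpos
    _ < ε := by
        have := hm₁ m hm1
        linarith

end Pool.Agent.W780.FA
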