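import Pool.Agent.W780.FA.Defs

set_option autoImplicit false

/-!
Hilbert space facts on the torus.
-/

namespace Pool.Agent.W780.FA

open MeasureTheory Filter Topology ENNReal AddCircle

variable {d : ℕ}

instance : IsProbabilityMeasure (torusMeasure d) := by
  unfold torusMeasure
  infer_instance

lemma continuous_character (k : Fin d → ℤ) : Continuous (character k) := by
  unfold character
  fun_prop

lemma norm_character (k : Fin d → ℤ) (x : Torus d) : ‖character k x‖ = 1 := by
  unfold character
  simp [fourier_apply]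

lemma character_add (k : Fin d → ℤ) (x y : Torus d) :
    character k (x + y) = character k x * character k y := by
  unfold character
  simp only [Pi.add_apply, fourier_apply, smul_add, toCircle_add, Circle.coe_mul, Finset.prod_mul_distrib]

/-- The character as a continuous map. -/
noncomputable def characterC (k : Fin d → ℤ) : C(Torus d, ℂ) := ⟨character k, continuous_character k⟩

/-- The character as an element of `L²`. -/
noncomputable def chL (k : Fin d → ℤ) : Lp ℂ 2 (torusMeasure d) :=
  ContinuousMap.toLp 2 (torusMeasure d) ℂ (characterC k)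

lemma coeFn_chL (k : Fin d → ℤ) : chL k =ᵐ[torusMeasure d] character k :=
  ContinuousMap.coeFn_toLp (torusMeasure d) (characterC k)

lemma character_conj (k : Fin d → ℤ) (x : Torus d) :
    (starRingEnd ℂ) (character k x) = character (-k) x := by
  simp only [character, Pi.neg_apply, fourier_neg, map_prod]

lemma character_mul (k l : Fin d → ℤ) (x : Torus d) :
    character k x * character l x = character (k + l) x := by
  simp only [character, Pi.add_apply, fourier_add, ← Finset.prod_mul_distrib]

lemma integral_character (k : Fin d → ℤ) :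
    ∫ x, character k x ∂(torusMeasure d) = if k = 0 then 1 else 0 := by
  split_ifs with h
  · simp [h, character]
  · unfold character torusMeasure
    rw [MeasureTheory.integral_fintype_prod_eq_prod (fun j (x : AddCircle (2 * Real.pi)) => fourier (k j) x)]
    obtain ⟨i, hi⟩ := Function.ne_iff.mp h
    apply Finset.prod_eq_zero (Finset.mem_univ i)
    have := (orthonormal_iff_ite.mp <| orthonormal_fourier (T := 2 * Real.pi)) 0 (k i)
    have hi' : (0 : ℤ) ≠ k i := Ne.symm hi
    rw [if_neg hi'] at this
    simpa [ContinuousMap.inner_toLp] using this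

theorem orthonormal_chL : Orthonormal ℂ (chL (d := d)) := by
  rw [orthonormal_iff_ite]
  intro m n
  have h : ∀ x : Torus d, inner ℂ (characterC m x) (characterC n x) = character (n - m) x := by
    intro x
    simp only [characterC, ContinuousMap.coe_mk, RCLike.inner_apply]
    rw [character_conj, character_mul, sub_eq_add_neg]
  unfold chL
  rw [ContinuousMap.inner_toLp]
  have h2 : ∀ x : Torus d, (characterC n) x * (starRingEnd ℂ) ((characterC m) x) =
      character (n - m) x := by
    intro x
    simp only [characterC, ContinuousMap.coe_mk]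
    rw [character_conj, character_mul, sub_eq_add_neg]
  simp only [h2]
  rw [integral_character]
  simp only [sub_eq_zero, eq_comm]

lemma inner_chL (F : Lp ℂ 2 (torusMeasure d)) (k : Fin d → ℤ) :
    inner ℂ (chL k) F = fourierCoefficient F k := by
  rw [MeasureTheory.L2.inner_def]
  unfold fourierCoefficient
  apply integral_congr_ae
  filter_upwards [coeFn_chL k] with x hx
  rw [hx]
  simp [RCLike.inner_apply]

instance : (torusMeasure d).IsAddHaarMeasure := by
  unfold torusMeasure
  infer_instance

instance : (torusMeasure d).IsAddRightInvariant := by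
  infer_instance

/-- Translation on `L²`. -/
noncomputable def trans (y : Torus d) : Lp ℂ 2 (torusMeasure d) →ₗᵢ[ℂ] Lp ℂ 2 (torusMeasure d) :=
  Lp.compMeasurePreservingₗᵢ ℂ (fun x => x + y) (measurePreserving_add_right (torusMeasure d) y)

lemma coeFn_trans (y : Torus d) (F : Lp ℂ 2 (torusMeasure d)) :
    trans y F =ᵐ[torusMeasure d] fun x => F (x + y) :=
  Lp.coeFn_compMeasurePreserving F (measurePreserving_add_right (torusMeasure d) y)

lemma trans_chL (y : Torus d) (k : Fin d → ℤ) : trans y (chL k) = character k y • chL k := by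
  apply Lp.ext
  have h1 := coeFn_trans y (chL k)
  have h2 := Lp.coeFn_smul (character k y) (chL k)
  have h3 := coeFn_chL k
  have h4 := (measurePreserving_add_right (torusMeasure d) y).quasiMeasurePreserving.ae_eq_comp h3
  filter_upwards [h1, h2, h3, h4] with x h1 h2 h3 h4
  rw [h1, h2, Pi.smul_apply, h3]
  have h5 : (chL k) (x + y) = character k (x + y) := h4
  rw [h5, character_add, smul_eq_mul, mul_comm]

lemma eLpNorm_translate (F : Lp ℂ 2 (torusMeasure d)) (y : Torus d) :
    eLpNorm (fun x => F (x + y) - F x) 2 (torusMeasure d) = ENNReal.ofReal ‖trans y F - F‖ := by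
  rw [ofReal_norm, Lp.enorm_def]
  apply eLpNorm_congr_ae
  filter_upwards [Lp.coeFn_sub (trans y F) F, coeFn_trans y F] with x h1 h2
  rw [h1, Pi.sub_apply, h2]

/-- Trigonometric polynomial in `L²`. -/
noncomputable def poly (s : Finset (Fin d → ℤ)) (a : (Fin d → ℤ) → ℂ) :
    Lp ℂ 2 (torusMeasure d) := ∑ k ∈ s, a k • chL k

lemma norm_poly_sq (s : Finset (Fin d → ℤ)) (a : (Fin d → ℤ) → ℂ) :
    ‖poly s a‖ ^ 2 = ∑ k ∈ s, ‖a k‖ ^ 2 := by
  rw [@norm_sq_eq_re_inner ℂ]
  unfold poly
  rw [orthonormal_chL.inner_sum a a s, map_sum]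
  apply Finset.sum_congr rfl
  intro k _
  rw [mul_comm, Complex.mul_conj, Complex.normSq_eq_norm_sq]
  exact Complex.ofReal_re _

lemma norm_poly_le (s : Finset (Fin d → ℤ)) (a : (Fin d → ℤ) → ℂ) {R : ℝ} (hR : 0 ≤ R)
    (h : ∀ k ∈ s, ‖a k‖ ≤ R) : ‖poly s a‖ ≤ R * Real.sqrt s.card := by
  apply le_of_sq_le_sq _ (by positivity)
  rw [norm_poly_sq, mul_pow, Real.sq_sqrt (by positivity)]
  calc ∑ k ∈ s, ‖a k‖ ^ 2 ≤ ∑ _k ∈ s, R ^ 2 := by
        apply Finset.sum_le_sum
        intro k hk
        exact pow_le_pow_left₀ (norm_nonneg _) (h k hk) 2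
    _ = R ^ 2 * s.card := by rw [Finset.sum_const, nsmul_eq_mul, mul_comm]

lemma inner_chL_poly (s : Finset (Fin d → ℤ)) (a : (Fin d → ℤ) → ℂ) (k : Fin d → ℤ) :
    inner ℂ (chL k) (poly s a) = if k ∈ s then a k else 0 := by
  classical
  unfold poly
  split_ifs with h
  · exact orthonormal_chL.inner_right_sum a h
  · rw [inner_sum]
    apply Finset.sum_eq_zero
    intro l hl
    rw [inner_smul_right, orthonormal_iff_ite.mp orthonormal_chL k l, if_neg, mul_zero]
    rintro rfl
    exact h hl

lemma trans_poly (y : Torus d) (s : Finset (Fin d → ℤ)) (a : (Fin d → ℤ) → ℂ) :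
    trans y (poly s a) - poly s a = poly s (fun k => a k * (character k y - 1)) := by
  unfold poly
  rw [map_sum, ← Finset.sum_sub_distrib]
  apply Finset.sum_congr rfl
  intro k _
  rw [map_smul, trans_chL, smul_smul, ← sub_smul]
  congr 1
  ring

lemma character_coe (k : Fin d → ℤ) (t : Fin d → ℝ) :
    character k (fun j => ((t j : ℝ) : AddCircle (2 * Real.pi))) =
      Complex.exp (Complex.I * ((∑ j, (k j : ℝ) * t j : ℝ) : ℂ)) := by
  unfold character
  push_cast
  rw [Finset.mul_sum, Complex.exp_sum]
  apply Finset.prod_congr rfl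
  intro j _
  rw [fourier_coe_apply]
  congr 1
  have : (Real.pi : ℂ) ≠ 0 := by exact_mod_cast Real.pi_ne_zero
  push_cast
  field_simp

/-- `|exp(i k·h) - 1| ≤ d R |h|` when `|k_j| ≤ R`. -/
lemma norm_character_toTorus_sub_one (k : Fin d → ℤ) (h : EuclideanSpace ℝ (Fin d)) {R : ℝ}
    (hk : ∀ j, |(k j : ℝ)| ≤ R) : ‖character k (toTorus h) - 1‖ ≤ d * (R * ‖h‖) := by
  unfold toTorus
  rw [character_coe]
  refine Real.norm_exp_I_mul_ofReal_sub_one_le.trans ?_
  refine (norm_sum_le _ _).trans ?_
  have : ∀ j ∈ (Finset.univ : Finset (Fin d)), ‖(k j : ℝ) * h j‖ ≤ R * ‖h‖ := by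
    intro j _
    rw [norm_mul]
    apply mul_le_mul _ (PiLp.norm_apply_le h j) (norm_nonneg _)
      ((abs_nonneg _).trans (hk j))
    rw [Real.norm_eq_abs]
    exact hk j
  refine (Finset.sum_le_sum this).trans ?_
  rw [Finset.sum_const, nsmul_eq_mul, Finset.card_univ, Fintype.card_fin]

lemma norm_character_sub_one_le_two (k : Fin d → ℤ) (y : Torus d) :
    ‖character k y - 1‖ ≤ 2 := by
  refine (norm_sub_le _ _).trans ?_
  rw [norm_character, norm_one]
  norm_num

end Pool.Agent.W780.FA
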