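import Pool.Agent.W780.FA.Core
import Pool.Agent.W780.FA.Asymp
import Pool.Agent.W780.FA.Torus

set_option autoImplicit false

/-!
The building blocks on the two-dimensional torus.
-/

namespace Pool.Agent.W780.FA

open MeasureTheory Filter Topology ENNReal AddCircle

/-- Frequencies of a block. -/
noncomputable def blockSet (N K W : ℕ) : Finset (Fin 2 → ℤ) :=
  Fintype.piFinset ![Finset.Ico ((N + K : ℕ) : ℤ) ((N + K + W : ℕ) : ℤ),
    Finset.Ico (N : ℤ) ((N + N : ℕ) : ℤ)]

lemma mem_blockSet {N K W : ℕ} {k : Fin 2 → ℤ} : k ∈ blockSet N K W ↔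
    (((N + K : ℕ) : ℤ) ≤ k 0 ∧ k 0 < ((N + K + W : ℕ) : ℤ)) ∧
      ((N : ℤ) ≤ k 1 ∧ k 1 < ((N + N : ℕ) : ℤ)) := by
  unfold blockSet
  rw [Fintype.mem_piFinset, Fin.forall_fin_two]
  simp [Finset.mem_Ico]

lemma card_blockSet (N K W : ℕ) : (blockSet N K W).card = W * N := by
  unfold blockSet
  rw [Fintype.card_piFinset, Fin.prod_univ_two]
  simp only [Matrix.cons_val_zero, Matrix.cons_val_one, Int.card_Ico]
  congr 1 <;> · push_cast; omega

/-- Coefficients of a block. -/
noncomputable def blockCoeff (N : ℕ) (k : Fin 2 → ℤ) : ℂ :=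
  ((1 / N : ℝ) : ℂ) * E (-(((k 0 : ℝ) - N) * ((k 1 : ℝ) - N) / N))

lemma norm_blockCoeff (N : ℕ) (k : Fin 2 → ℤ) : ‖blockCoeff N k‖ = 1 / N := by
  unfold blockCoeff
  rw [norm_mul, norm_E, mul_one, Complex.norm_real, Real.norm_eq_abs, abs_of_nonneg (by positivity)]

/-- A block. -/
noncomputable def block (N K W : ℕ) : Lp ℂ 2 (torusMeasure 2) :=
  poly (blockSet N K W) (blockCoeff N)

lemma sqrt_identity {N W : ℕ} (hN : 0 < N) :
    (1 / (N : ℝ)) * Real.sqrt ((W * N : ℕ) : ℝ) = Real.sqrt ((W : ℝ) / N) := by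
  have hN' : (0 : ℝ) < N := by exact_mod_cast hN
  have h1 : (W : ℝ) / N = ((W * N : ℕ) : ℝ) / (N : ℝ) ^ 2 := by
    push_cast
    field_simp
  rw [h1, Real.sqrt_div (by positivity), Real.sqrt_sq hN'.le]
  ring

lemma norm_block_le {N K W : ℕ} (hN : 0 < N) : ‖block N K W‖ ≤ Real.sqrt ((W : ℝ) / N) := by
  have h := norm_poly_le (blockSet N K W) (blockCoeff N) (R := 1 / N) (by positivity)
    (fun k _ => (norm_blockCoeff N k).le)
  rwa [card_blockSet, sqrt_identity hN] at h

lemma norm_trans_block_le {N K W : ℕ} (hN : 0 < N) (hKW : K + W ≤ N)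
    (h : EuclideanSpace ℝ (Fin 2)) :
    ‖trans (toTorus h) (block N K W) - block N K W‖ ≤
      Real.sqrt ((W : ℝ) / N) * min 2 (4 * (N : ℝ) * ‖h‖) := by
  unfold block
  rw [trans_poly]
  have hN' : (0 : ℝ) < N := by exact_mod_cast hN
  have h1 := norm_poly_le (blockSet N K W)
    (fun k => blockCoeff N k * (character k (toTorus h) - 1))
    (R := (1 / N) * min 2 (4 * (N : ℝ) * ‖h‖)) (by
      have : 0 ≤ min 2 (4 * (N : ℝ) * ‖h‖) := le_min (by norm_num) (by positivity)
      positivity) (by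
      intro k hk
      rw [norm_mul, norm_blockCoeff]
      apply mul_le_mul_of_nonneg_left _ (by positivity)
      apply le_min (norm_character_sub_one_le_two k _)
      have hk' := mem_blockSet.mp hk
      have hb : ∀ j, |(k j : ℝ)| ≤ 2 * N := by
        rw [Fin.forall_fin_two]
        obtain ⟨⟨a1, a2⟩, b1, b2⟩ := hk'
        constructor
        · have e1 : 0 ≤ k 0 := by omega
          have e2 : k 0 ≤ 2 * N := by push_cast at *; omega
          rw [abs_of_nonneg (by exact_mod_cast e1)]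
          exact_mod_cast e2
        · have e1 : 0 ≤ k 1 := by omega
          have e2 : k 1 ≤ 2 * N := by push_cast at *; omega
          rw [abs_of_nonneg (by exact_mod_cast e1)]
          exact_mod_cast e2
      refine (norm_character_toTorus_sub_one k h hb).trans (le_of_eq ?_)
      push_cast
      ring)
  refine h1.trans (le_of_eq ?_)
  rw [card_blockSet, ← sqrt_identity hN]
  ring

/-- The data of the construction. -/
structure Data where
  K : ℕ → ℕ
  W : ℕ → ℕ
  A : ℕ → ℝ
  hKW : ∀ j, K j + W j ≤ NN j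
  hA : ∀ j, 0 ≤ A j
  hs : Summable (fun j => A j * Real.sqrt ((W j : ℝ) / NN j))

namespace Data

variable (D : Data)

/-- The `j`-th term. -/
noncomputable def term (j : ℕ) : Lp ℂ 2 (torusMeasure 2) :=
  (D.A j : ℂ) • block (NN j) (D.K j) (D.W j)

lemma norm_term_le (j : ℕ) : ‖D.term j‖ ≤ D.A j * Real.sqrt ((D.W j : ℝ) / NN j) := by
  unfold term
  rw [norm_smul, Complex.norm_real, Real.norm_eq_abs, abs_of_nonneg (D.hA j)]
  exact mul_le_mul_of_nonneg_left (norm_block_le (NN_pos j)) (D.hA j)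

lemma summable_term : Summable D.term :=
  Summable.of_norm_bounded D.hs D.norm_term_le

/-- The function. -/
noncomputable def F : Lp ℂ 2 (torusMeasure 2) := ∑' j, D.term j

lemma fourierCoefficient_F (k : Fin 2 → ℤ) :
    fourierCoefficient D.F k = ∑' j, if k ∈ blockSet (NN j) (D.K j) (D.W j) then
      (D.A j : ℂ) * blockCoeff (NN j) k else 0 := by
  rw [← inner_chL]
  unfold F
  have h : HasSum (fun j => inner ℂ (chL k) (D.term j)) (inner ℂ (chL k) (∑' j, D.term j)) :=
    D.summable_term.hasSum.mapL (innerSL ℂ (chL k))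
  rw [← h.tsum_eq]
  congr 1
  ext j
  unfold term block
  rw [inner_smul_right, inner_chL_poly]
  split_ifs <;> simp

lemma disjoint_aux {i j : ℕ} (hij : i < j) {k : Fin 2 → ℤ}
    (hi : k ∈ blockSet (NN i) (D.K i) (D.W i)) : k ∉ blockSet (NN j) (D.K j) (D.W j) := by
  intro hj
  rw [mem_blockSet] at hi hj
  have h1 := two_mul_NN_le hij
  have h2 := hi.2.2
  have h3 := hj.2.1
  push_cast at *
  omega

lemma fourierCoefficient_mem {j : ℕ} {k : Fin 2 → ℤ}
    (hk : k ∈ blockSet (NN j) (D.K j) (D.W j)) :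
    fourierCoefficient D.F k = (D.A j : ℂ) * blockCoeff (NN j) k := by
  rw [fourierCoefficient_F, tsum_eq_single j]
  · rw [if_pos hk]
  · intro i hi
    rw [if_neg]
    intro hki
    rcases lt_or_gt_of_ne hi with h | h
    · exact D.disjoint_aux h hki hk
    · exact D.disjoint_aux h hk hki

lemma fourierCoefficient_not_mem {k : Fin 2 → ℤ}
    (hk : ∀ j, k ∉ blockSet (NN j) (D.K j) (D.W j)) : fourierCoefficient D.F k = 0 := by
  rw [fourierCoefficient_F]
  simp [hk]

lemma norm_trans_sub_le (h : EuclideanSpace ℝ (Fin 2)) :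
    ‖trans (toTorus h) D.F - D.F‖ ≤
      ∑' j, D.A j * Real.sqrt ((D.W j : ℝ) / NN j) * min 2 (4 * (NN j : ℝ) * ‖h‖) := by
  have hs1 : HasSum (fun j => trans (toTorus h) (D.term j)) (trans (toTorus h) D.F) :=
    D.summable_term.hasSum.mapL (trans (toTorus h)).toContinuousLinearMap
  have hs2 := hs1.sub D.summable_term.hasSum
  have hb : ∀ j, ‖trans (toTorus h) (D.term j) - D.term j‖ ≤
      D.A j * Real.sqrt ((D.W j : ℝ) / NN j) * min 2 (4 * (NN j : ℝ) * ‖h‖) := by
    intro j
    unfold term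
    rw [map_smul, ← smul_sub, norm_smul, Complex.norm_real, Real.norm_eq_abs,
      abs_of_nonneg (D.hA j), mul_assoc]
    exact mul_le_mul_of_nonneg_left (norm_trans_block_le (NN_pos j) (D.hKW j) h) (D.hA j)
  have hs3 : Summable (fun j => D.A j * Real.sqrt ((D.W j : ℝ) / NN j) *
      min 2 (4 * (NN j : ℝ) * ‖h‖)) := by
    refine Summable.of_nonneg_of_le (fun j => (norm_nonneg _).trans (hb j)) (fun j => ?_)
      (D.hs.mul_right 2)
    apply mul_le_mul_of_nonneg_left (min_le_left _ _)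
    have := D.hA j
    positivity
  have : trans (toTorus h) D.F - D.F = ∑' j, (trans (toTorus h) (D.term j) - D.term j) :=
    hs2.tsum_eq.symm
  rw [this]
  exact tsum_of_norm_bounded hs3.hasSum hb

lemma modulus_le {δ : ℝ} (hδ : 0 ≤ δ) :
    modulus 2 D.F δ ≤ ENNReal.ofReal
      (∑' j, D.A j * Real.sqrt ((D.W j : ℝ) / NN j) * min 2 (4 * (NN j : ℝ) * δ)) := by
  unfold modulus
  refine iSup_le fun h => iSup_le fun hh => ?_
  rw [eLpNorm_translate]
  apply ENNReal.ofReal_le_ofReal
  refine (D.norm_trans_sub_le h).trans ?_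
  have hs3 : ∀ t : ℝ, 0 ≤ t → Summable (fun j => D.A j * Real.sqrt ((D.W j : ℝ) / NN j) *
      min 2 (4 * (NN j : ℝ) * t)) := by
    intro t ht
    refine Summable.of_nonneg_of_le (fun j => ?_) (fun j => ?_) (D.hs.mul_right 2)
    · have := D.hA j
      have : 0 ≤ min 2 (4 * (NN j : ℝ) * t) := le_min (by norm_num) (by positivity)
      positivity
    · apply mul_le_mul_of_nonneg_left (min_le_left _ _)
      have := D.hA j
      positivity
  apply (hs3 _ (norm_nonneg h)).tsum_le_tsum _ (hs3 δ hδ)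
  intro j
  apply mul_le_mul_of_nonneg_left
  · exact min_le_min le_rfl (by gcongr)
  · have := D.hA j
    positivity

end Data

end Pool.Agent.W780.FA
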