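import Mathlib

set_option autoImplicit false

/-!
Lower bound for the rectangular sections of the discrete chirp `e(-ab/N)`.
-/

namespace Pool.Agent.W780.FA

open Finset Complex

/-- `E t = exp (2 π i t)`. -/
noncomputable def E (t : ℝ) : ℂ := Complex.exp (((2 * Real.pi * t : ℝ) : ℂ) * Complex.I)

lemma E_add (s t : ℝ) : E (s + t) = E s * E t := by
  unfold E
  rw [← Complex.exp_add]
  congr 1
  push_cast
  ring

@[simp] lemma E_zero : E 0 = 1 := by simp [E]

lemma norm_E (t : ℝ) : ‖E t‖ = 1 := by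
  unfold E
  exact Complex.norm_exp_ofReal_mul_I _

lemma E_ne_zero (t : ℝ) : E t ≠ 0 := by
  intro h
  have := norm_E t
  rw [h, norm_zero] at this
  exact zero_ne_one this

lemma E_nat_mul (n : ℕ) (t : ℝ) : E (n * t) = E t ^ n := by
  induction n with
  | zero => simp
  | succ n ih => rw [pow_succ, ← ih, ← E_add]; congr 1; push_cast; ring

lemma E_int (n : ℤ) : E n = 1 := by
  unfold E
  rw [Complex.exp_eq_one_iff]
  exact ⟨n, by push_cast; ring⟩

lemma E_re (t : ℝ) : (E t).re = Real.cos (2 * Real.pi * t) := by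
  unfold E
  exact Complex.exp_ofReal_mul_I_re _

lemma E_im (t : ℝ) : (E t).im = Real.sin (2 * Real.pi * t) := by
  unfold E
  exact Complex.exp_ofReal_mul_I_im _

lemma norm_E_sub_E_le (s t : ℝ) : ‖E s - E t‖ ≤ 2 * Real.pi * |s - t| := by
  have h1 : E s - E t = E t * (E (s - t) - 1) := by
    rw [mul_sub, ← E_add, mul_one]; congr 2; ring
  rw [h1, norm_mul, norm_E, one_mul]
  have h := Real.norm_exp_I_mul_ofReal_sub_one_le (x := 2 * Real.pi * (s - t))
  rw [mul_comm] at h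
  unfold E
  refine h.trans ?_
  rw [Real.norm_eq_abs, abs_mul, abs_of_pos Real.two_pi_pos]

/-- `‖1 - E (-θ)‖ ≥ 4 θ` for `0 ≤ θ ≤ 1/2`. -/
lemma norm_one_sub_E_ge {θ : ℝ} (h0 : 0 ≤ θ) (h1 : θ ≤ 1 / 2) : 4 * θ ≤ ‖1 - E (-θ)‖ := by
  have h2 : ‖1 - E (-θ)‖ ^ 2 = (2 * Real.sin (Real.pi * θ)) ^ 2 := by
    rw [← Complex.normSq_eq_norm_sq, Complex.normSq_apply]
    simp only [Complex.sub_re, Complex.sub_im, Complex.one_re, Complex.one_im, E_re, E_im]
    have e1 : 2 * Real.pi * -θ = -(2 * (Real.pi * θ)) := by ring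
    rw [e1, Real.cos_neg, Real.sin_neg, Real.cos_two_mul, Real.sin_two_mul]
    have := Real.sin_sq_add_cos_sq (Real.pi * θ)
    have h3 : Real.cos (Real.pi * θ) ^ 2 = 1 - Real.sin (Real.pi * θ) ^ 2 := by linarith
    ring_nf
    rw [show Real.cos (Real.pi * θ) ^ 4 = (Real.cos (Real.pi * θ) ^ 2) ^ 2 by ring, h3]
    ring
  have h3 : 2 / Real.pi * (Real.pi * θ) ≤ Real.sin (Real.pi * θ) := by
    apply Real.mul_le_sin (by positivity)
    have := Real.pi_pos
    nlinarith
  have h4 : 2 / Real.pi * (Real.pi * θ) = 2 * θ := by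
    field_simp
  rw [h4] at h3
  have h5 : 4 * θ ≤ 2 * Real.sin (Real.pi * θ) := by linarith
  calc 4 * θ ≤ 2 * Real.sin (Real.pi * θ) := h5
    _ ≤ ‖1 - E (-θ)‖ := by
      apply le_of_sq_le_sq _ (norm_nonneg _)
      rw [h2]

/-- The same for `1/8 ≤ β ≤ 7/8`. -/
lemma norm_one_sub_E_ge' {β : ℝ} (h0 : 1 / 8 ≤ β) (h1 : β ≤ 7 / 8) : 1 / 2 ≤ ‖1 - E (-β)‖ := by
  rcases le_total β (1 / 2) with h | h
  · have := norm_one_sub_E_ge (by linarith) h
    linarith
  · have h2 := norm_one_sub_E_ge (θ := 1 - β) (by linarith) (by linarith)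
    have h3 : ‖1 - E (-(1 - β))‖ = ‖1 - E (-β)‖ := by
      have e1 : E (-(1 - β)) = E β := by
        have : -(1 - β) = β + ((-1 : ℤ) : ℝ) := by push_cast; ring
        rw [this, E_add, E_int, mul_one]
      have e2 : 1 - E β = -(E β) * (1 - E (-β)) := by
        have : E β * E (-β) = 1 := by rw [← E_add]; simp
        linear_combination -this
      rw [e1, e2, norm_mul, norm_neg, norm_E, one_mul]
    rw [h3] at h2
    linarith

/-- The imaginary part of `E (-s) / (1 - E (-θ))` is very negative. -/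
lemma im_main {s θ : ℝ} (hs0 : 0 ≤ s) (hs1 : s ≤ 1 / 8) (h0 : 0 < θ) (h1 : θ ≤ 1 / 4) :
    (7 / 100) / θ ≤ -(E (-s) * (1 - E (-θ))⁻¹).im := by
  set u := Real.pi * θ with hu
  have hpi := Real.pi_pos
  have hu0 : 0 < u := by positivity
  have hu1 : u ≤ Real.pi / 4 := by rw [hu]; nlinarith
  have hsin : 0 < Real.sin u := Real.sin_pos_of_pos_of_lt_pi hu0 (by linarith)
  have hsq2 : (7 : ℝ) / 10 ≤ Real.sqrt 2 / 2 := by
    have : (7 / 5 : ℝ) ≤ Real.sqrt 2 := by
      apply Real.le_sqrt_of_sq_le; norm_num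
    linarith
  have hcosu : (7 : ℝ) / 10 ≤ Real.cos u := by
    refine hsq2.trans ?_
    rw [← Real.cos_pi_div_four]
    exact Real.cos_le_cos_of_nonneg_of_le_pi hu0.le (by linarith) hu1
  have hcoss : (7 : ℝ) / 10 ≤ Real.cos (2 * Real.pi * s) := by
    refine hsq2.trans ?_
    rw [← Real.cos_pi_div_four]
    exact Real.cos_le_cos_of_nonneg_of_le_pi (by positivity) (by linarith) (by nlinarith)
  have hsins : 0 ≤ Real.sin (2 * Real.pi * s) :=
    Real.sin_nonneg_of_nonneg_of_le_pi (by positivity) (by nlinarith)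
  have hinv : (1 - E (-θ))⁻¹ = ((1 / 2 : ℝ) : ℂ) - ((Real.cos u / (2 * Real.sin u) : ℝ) : ℂ) * Complex.I := by
    rw [inv_eq_iff_eq_inv, eq_comm, inv_eq_iff_eq_inv, eq_comm]
    symm
    apply eq_inv_of_mul_eq_one_left
    apply Complex.ext
    · simp only [Complex.mul_re, Complex.sub_re, Complex.sub_im, Complex.ofReal_re,
        Complex.ofReal_im, Complex.I_re, Complex.I_im, Complex.one_re, Complex.one_im, E_re, E_im,
        Complex.mul_im]
      have e1 : 2 * Real.pi * -θ = -(2 * u) := by rw [hu]; ring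
      rw [e1, Real.cos_neg, Real.sin_neg, Real.cos_two_mul, Real.sin_two_mul]
      have h3 : Real.cos u ^ 2 = 1 - Real.sin u ^ 2 := by
        have := Real.sin_sq_add_cos_sq u; linarith
      field_simp
      ring_nf
    · simp only [Complex.mul_re, Complex.sub_re, Complex.sub_im, Complex.ofReal_re,
        Complex.ofReal_im, Complex.I_re, Complex.I_im, Complex.one_re, Complex.one_im, E_re, E_im,
        Complex.mul_im]
      have e1 : 2 * Real.pi * -θ = -(2 * u) := by rw [hu]; ring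
      rw [e1, Real.cos_neg, Real.sin_neg, Real.cos_two_mul, Real.sin_two_mul]
      have h3 : Real.cos u ^ 2 = 1 - Real.sin u ^ 2 := by
        have := Real.sin_sq_add_cos_sq u; linarith
      field_simp
      ring_nf
      rw [show Real.cos u ^ 3 = Real.cos u * Real.cos u ^ 2 by ring, h3]
      ring
  have him : -(E (-s) * (1 - E (-θ))⁻¹).im =
      Real.cos (2 * Real.pi * s) * (Real.cos u / (2 * Real.sin u)) +
        Real.sin (2 * Real.pi * s) / 2 := by
    rw [hinv]
    simp only [Complex.mul_im, Complex.sub_re, Complex.sub_im, Complex.ofReal_re,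
        Complex.ofReal_im, Complex.I_re, Complex.I_im, E_re, E_im, Complex.mul_re]
    have e1 : 2 * Real.pi * -s = -(2 * Real.pi * s) := by ring
    rw [e1, Real.cos_neg, Real.sin_neg]
    ring
  rw [him]
  have h5 : (7 / 10) * ((7 / 10) / (2 * u)) ≤
      Real.cos (2 * Real.pi * s) * (Real.cos u / (2 * Real.sin u)) := by
    apply mul_le_mul hcoss _ (by positivity) (by linarith)
    apply div_le_div₀ (by linarith) hcosu (by positivity)
    have := Real.sin_le hu0.le
    linarith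
  have h6 : (7 / 100) / θ ≤ (7 / 10) * ((7 / 10) / (2 * u)) := by
    rw [hu]
    have hp4 : Real.pi < 7 / 2 := by have := Real.pi_lt_d2; linarith
    rw [div_le_iff₀ h0]
    have : (7 : ℝ) / 10 * (7 / 10 / (2 * (Real.pi * θ))) * θ = (49 / 200) / Real.pi := by
      field_simp
      ring
    rw [this, le_div_iff₀ hpi]
    linarith
  linarith

/-- Geometric sums. -/
lemma geom_E {θ : ℝ} (h : E (-θ) ≠ 1) (L : ℕ) :
    ∑ b ∈ range (L + 1), E (-(b * θ)) = (1 - E (-((L + 1) * θ))) * (1 - E (-θ))⁻¹ := by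
  have h1 : ∀ b : ℕ, E (-(b * θ)) = E (-θ) ^ b := by
    intro b
    rw [← E_nat_mul]
    congr 1
    ring
  have h2 : E (-((L + 1) * θ)) = E (-θ) ^ (L + 1) := by
    rw [← E_nat_mul]
    congr 1
    push_cast
    ring
  rw [Finset.sum_congr rfl (fun b _ => h1 b), h2, geom_sum_eq h]
  have h3 : E (-θ) - 1 ≠ 0 := sub_ne_zero.mpr h
  have h4 : 1 - E (-θ) ≠ 0 := sub_ne_zero.mpr (Ne.symm h)
  field_simp
  ring

/-- Summation by parts. -/
lemma abel_aux (c : ℕ → ℂ) {w : ℂ} (hw : ‖w‖ = 1) (M : ℕ) :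
    ‖(1 - w) * ∑ a ∈ range (M + 1), w ^ a * c a + w ^ (M + 1) * c M‖ ≤
      ‖c 0‖ + ∑ a ∈ range M, ‖c (a + 1) - c a‖ := by
  induction M with
  | zero =>
    simp only [zero_add, Finset.sum_range_one, pow_zero, one_mul, pow_one, Finset.range_zero,
      Finset.sum_empty, add_zero]
    have : (1 - w) * c 0 + w * c 0 = c 0 := by ring
    rw [this]
  | succ M ih =>
    rw [Finset.sum_range_succ _ (M + 1), Finset.sum_range_succ (fun a => ‖c (a + 1) - c a‖) M]
    have : (1 - w) * (∑ a ∈ range (M + 1), w ^ a * c a + w ^ (M + 1) * c (M + 1)) +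
        w ^ (M + 1 + 1) * c (M + 1) =
        ((1 - w) * ∑ a ∈ range (M + 1), w ^ a * c a + w ^ (M + 1) * c M) +
        w ^ (M + 1) * (c (M + 1) - c M) := by ring
    rw [this]
    refine (norm_add_le _ _).trans ?_
    rw [norm_mul, norm_pow, hw, one_pow, one_mul]
    linarith

lemma abel_bound (c : ℕ → ℂ) {w : ℂ} (hw : ‖w‖ = 1) {ρ : ℝ} (hρ : 0 < ρ) (h1 : ρ ≤ ‖1 - w‖)
    (M : ℕ) {B : ℝ}
    (hB : ‖c 0‖ + ∑ a ∈ range M, ‖c (a + 1) - c a‖ + ‖c M‖ ≤ B) :
    ‖∑ a ∈ range (M + 1), w ^ a * c a‖ ≤ B / ρ := by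
  have h2 := abel_aux c hw M
  have h3 : ‖(1 - w) * ∑ a ∈ range (M + 1), w ^ a * c a‖ ≤ B := by
    have h4 : (1 - w) * ∑ a ∈ range (M + 1), w ^ a * c a =
      ((1 - w) * ∑ a ∈ range (M + 1), w ^ a * c a + w ^ (M + 1) * c M) - w ^ (M + 1) * c M := by
      ring
    rw [h4]
    refine (norm_sub_le _ _).trans ?_
    have h5 : ‖w ^ (M + 1) * c M‖ = ‖c M‖ := by
      rw [norm_mul, norm_pow, hw, one_pow, one_mul]
    rw [h5]
    linarith
  rw [norm_mul] at h3
  rw [le_div_iff₀ hρ]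
  calc ‖∑ a ∈ range (M + 1), w ^ a * c a‖ * ρ ≤ ‖∑ a ∈ range (M + 1), w ^ a * c a‖ * ‖1 - w‖ :=
        mul_le_mul_of_nonneg_left h1 (norm_nonneg _)
    _ ≤ B := by rw [mul_comm]; exact h3

lemma sum_inv_mul_succ (M : ℕ) :
    ∑ a ∈ range M, (1 : ℝ) / ((a + 1) * (a + 2)) = 1 - 1 / (M + 1) := by
  induction M with
  | zero => simp
  | succ M ih =>
    rw [Finset.sum_range_succ, ih]
    push_cast
    field_simp
    ring

lemma log_le_sum (M : ℕ) :
    Real.log (M + 2) - 1 ≤ ∑ a ∈ range M, (1 : ℝ) / (a + 2) := by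
  have h := log_add_one_le_harmonic (M + 1)
  rw [harmonic_eq_sum_Icc] at h
  have h2 : ((∑ i ∈ Finset.Icc 1 (M + 1), (i : ℚ)⁻¹ : ℚ) : ℝ) = 1 + ∑ a ∈ range M, (1 : ℝ) / (a + 2) := by
    push_cast
    have : ∀ m : ℕ, ∑ i ∈ Finset.Icc 1 (m + 1), (i : ℝ)⁻¹ = 1 + ∑ a ∈ range m, (1 : ℝ) / (a + 2) := by
      intro m
      induction m with
      | zero => simp
      | succ m ih =>
        rw [Finset.sum_Icc_succ_top (by omega), ih, Finset.sum_range_succ]
        push_cast
        ring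
    exact this M
  rw [h2] at h
  push_cast at h
  have h3 : (M : ℝ) + 1 + 1 = M + 2 := by ring
  rw [h3] at h
  linarith

/-- The core estimate. -/
theorem core {N : ℕ} (hN : 8 ≤ N) {L M : ℕ} (hL : L < N) (hM : 8 * (M + 1) ≤ N)
    {ξ η : ℝ} (hξ0 : 0 ≤ ξ) (hξ1 : ξ < 1 / N) (hη0 : 0 ≤ η) (hη1 : η < 1 / N)
    {ρ : ℝ} (hρ : 0 < ρ) (hρ1 : ρ ≤ ‖1 - E (-(ξ + (L + 1) / N))‖) :
    (7 / 100) * (Real.log (M + 2) - 1) - 1 - 1 / ρ ≤
      (1 / (N : ℝ)) * ‖∑ a ∈ range (M + 1), ∑ b ∈ range (L + 1),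
        E (-(a * ξ + b * η + a * b / N))‖ := by
  have hNpos : (0 : ℝ) < N := by
    have : 0 < N := by omega
    exact_mod_cast this
  rcases Nat.eq_zero_or_pos M with hM0 | hM0
  · have h1 : Real.log ((M : ℝ) + 2) ≤ 1 := by
      rw [hM0]
      have := Real.log_two_lt_d9
      norm_num
      linarith
    have h2 : 0 ≤ 1 / ρ := by positivity
    have h3 : 0 ≤ (1 / (N : ℝ)) * ‖∑ a ∈ range (M + 1), ∑ b ∈ range (L + 1),
        E (-(a * ξ + b * η + a * b / N))‖ := by positivity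
    linarith
  obtain ⟨m, rfl⟩ : ∃ m, M = m + 1 := ⟨M - 1, by omega⟩
  set θ : ℕ → ℝ := fun a => η + a / N with hθ
  set c : ℕ → ℂ := fun a => (1 - E (-θ a))⁻¹ with hc
  set w : ℂ := E (-(ξ + (L + 1) / N)) with hw
  have hwn : ‖w‖ = 1 := norm_E _
  have hMN : (8 : ℝ) * ((m : ℝ) + 2) ≤ N := by
    have : 8 * (m + 2) ≤ N := by omega
    exact_mod_cast this
  have hθlow : ∀ a : ℕ, (a : ℝ) / N ≤ θ a := fun a => by simp only [hθ]; linarith
  have hθup : ∀ a : ℕ, θ a ≤ (a + 1) / N := fun a => by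
    simp only [hθ]
    have : ((a : ℝ) + 1) / N = a / N + 1 / N := by ring
    linarith
  have hθ8 : ∀ a : ℕ, a ≤ m + 1 → θ a ≤ 1 / 8 := fun a ha => by
    refine (hθup a).trans ?_
    rw [div_le_iff₀ hNpos]
    have : (a : ℝ) ≤ m + 1 := by exact_mod_cast ha
    linarith
  have hcn : ∀ a : ℕ, 1 ≤ a → a ≤ m + 1 → 4 * (a : ℝ) / N ≤ ‖1 - E (-θ a)‖ := by
    intro a ha1 ha2
    have h1 := norm_one_sub_E_ge (θ := θ a) (le_trans (by positivity) (hθlow a))
      ((hθ8 a ha2).trans (by norm_num))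
    refine le_trans ?_ h1
    have := hθlow a
    have h2 : 4 * (a : ℝ) / N = 4 * (a / N) := by ring
    rw [h2]
    linarith
  have hcb : ∀ a : ℕ, 1 ≤ a → a ≤ m + 1 → ‖c a‖ ≤ N / (4 * a) := by
    intro a ha1 ha2
    have ha0 : (0 : ℝ) < a := by exact_mod_cast ha1
    simp only [hc]
    rw [norm_inv]
    have h1 := hcn a ha1 ha2
    have h2 : (0 : ℝ) < 4 * (a : ℝ) / N := by positivity
    calc ‖1 - E (-θ a)‖⁻¹ ≤ (4 * (a : ℝ) / N)⁻¹ := inv_anti₀ h2 h1
      _ = N / (4 * a) := by rw [inv_div]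
  have hcd : ∀ a : ℕ, 1 ≤ a → a + 1 ≤ m + 1 →
      ‖c (a + 1) - c a‖ ≤ (2 / 5) * N * (1 / (a * (a + 1))) := by
    intro a ha1 ha2
    have ha0 : (0 : ℝ) < a := by exact_mod_cast ha1
    have h1 := hcn a ha1 (by omega)
    have h2 := hcn (a + 1) (by omega) ha2
    have h1' : 1 - E (-θ a) ≠ 0 := by
      intro h
      rw [h, norm_zero] at h1
      have : (0 : ℝ) < 4 * (a : ℝ) / N := by positivity
      linarith
    have h2' : 1 - E (-θ (a + 1)) ≠ 0 := by
      intro h
      rw [h, norm_zero] at h2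
      have : (0 : ℝ) < 4 * ((a + 1 : ℕ) : ℝ) / N := by positivity
      linarith
    have h3 : c (a + 1) - c a = (E (-θ (a + 1)) - E (-θ a)) * c (a + 1) * c a := by
      simp only [hc]
      field_simp
      ring
    have h4 : ‖E (-θ (a + 1)) - E (-θ a)‖ ≤ 2 * Real.pi * (1 / N) := by
      refine (norm_E_sub_E_le _ _).trans ?_
      apply mul_le_mul_of_nonneg_left _ (by positivity)
      have : -θ (a + 1) - -θ a = -(1 / N) := by
        simp only [hθ]
        push_cast
        ring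
      rw [this, abs_neg, abs_of_nonneg (by positivity)]
    have hb1 := hcb a ha1 (by omega)
    have hb2 := hcb (a + 1) (by omega) ha2
    rw [h3, norm_mul, norm_mul]
    have hpi : Real.pi < 3.15 := Real.pi_lt_d2
    calc ‖E (-θ (a + 1)) - E (-θ a)‖ * ‖c (a + 1)‖ * ‖c a‖
        ≤ (2 * Real.pi * (1 / N)) * (N / (4 * ((a + 1 : ℕ) : ℝ))) * (N / (4 * a)) := by
          gcongr
      _ = (Real.pi / 8) * (N * (1 / (a * (a + 1)))) := by
          push_cast
          field_simp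
          ring
      _ ≤ (2 / 5) * (N * (1 / (a * (a + 1)))) := by
          apply mul_le_mul_of_nonneg_right _ (by positivity)
          linarith
      _ = (2 / 5) * N * (1 / (a * (a + 1))) := by ring
  -- the inner sums
  have hne : ∀ a : ℕ, 1 ≤ a → a ≤ m + 1 → E (-θ a) ≠ 1 := by
    intro a ha1 ha2 h
    have h1 := hcn a ha1 ha2
    rw [h, sub_self, norm_zero] at h1
    have ha0 : (0 : ℝ) < a := by exact_mod_cast ha1
    have : (0 : ℝ) < 4 * (a : ℝ) / N := by positivity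
    linarith
  have hF : ∀ a : ℕ, 1 ≤ a → a ≤ m + 1 → ∑ b ∈ range (L + 1), E (-(a * ξ + b * η + a * b / N)) =
      E (-(a * ξ)) * c a - E (-((L + 1) * η)) * (w ^ a * c a) := by
    intro a ha1 ha2
    have h1 : ∀ b : ℕ, E (-(a * ξ + b * η + a * b / N)) = E (-(a * ξ)) * E (-(b * θ a)) := by
      intro b
      rw [← E_add]
      congr 1
      simp only [hθ]
      ring
    rw [Finset.sum_congr rfl (fun b _ => h1 b), ← Finset.mul_sum, geom_E (hne a ha1 ha2)]
    have h2 : E (-(a * ξ)) * E (-((L + 1) * θ a)) = E (-((L + 1) * η)) * w ^ a := by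
      rw [hw, ← E_nat_mul, ← E_add, ← E_add]
      congr 1
      simp only [hθ]
      ring
    simp only [hc]
    linear_combination (-(1 - E (-θ a))⁻¹) * h2
  rw [Finset.sum_range_succ']
  have hsum : ∑ a ∈ range (m + 1), ∑ b ∈ range (L + 1),
      E (-(((a + 1 : ℕ) : ℝ) * ξ + b * η + ((a + 1 : ℕ) : ℝ) * b / N)) =
      ∑ a ∈ range (m + 1), E (-(((a + 1 : ℕ) : ℝ) * ξ)) * c (a + 1) -
      E (-((L + 1) * η)) * (w * ∑ a ∈ range (m + 1), w ^ a * c (a + 1)) := by
    rw [Finset.mul_sum, Finset.mul_sum, ← Finset.sum_sub_distrib]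
    apply Finset.sum_congr rfl
    intro a ha
    rw [Finset.mem_range] at ha
    rw [hF (a + 1) (by omega) (by omega)]
    ring
  rw [hsum]
  set X := ∑ a ∈ range (m + 1), E (-(((a + 1 : ℕ) : ℝ) * ξ)) * c (a + 1) with hX
  set Y := E (-((L + 1) * η)) * (w * ∑ a ∈ range (m + 1), w ^ a * c (a + 1)) with hY
  set Z := ∑ b ∈ range (L + 1), E (-(((0 : ℕ) : ℝ) * ξ + b * η + ((0 : ℕ) : ℝ) * b / N)) with hZ
  have hZn : ‖Z‖ ≤ N := by
    refine (norm_sum_le _ _).trans ?_
    simp only [norm_E, Finset.sum_const, Finset.card_range, nsmul_eq_mul, mul_one]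
    have : L + 1 ≤ N := by omega
    exact_mod_cast this
  have hYn : ‖Y‖ ≤ N / ρ := by
    rw [hY, norm_mul, norm_mul, norm_E, hwn, one_mul, one_mul]
    apply abel_bound (fun a => c (a + 1)) hwn hρ hρ1 m
    have e1 : ‖c (0 + 1)‖ ≤ N / 4 := by
      have := hcb 1 le_rfl (by omega)
      simpa using this
    have e2 : ‖c (m + 1)‖ ≤ N / 4 := by
      refine (hcb (m + 1) (by omega) le_rfl).trans ?_
      apply div_le_div_of_nonneg_left hNpos.le (by norm_num)
      have : (1 : ℝ) ≤ ((m + 1 : ℕ) : ℝ) := by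
        push_cast
        have : (0 : ℝ) ≤ m := by positivity
        linarith
      linarith
    have e3 : ∑ a ∈ range m, ‖c (a + 1 + 1) - c (a + 1)‖ ≤ (2 / 5) * N := by
      calc ∑ a ∈ range m, ‖c (a + 1 + 1) - c (a + 1)‖
          ≤ ∑ a ∈ range m, (2 / 5) * N * (1 / (((a : ℝ) + 1) * (a + 2))) := by
            apply Finset.sum_le_sum
            intro a ha
            rw [Finset.mem_range] at ha
            refine (hcd (a + 1) (by omega) (by omega)).trans (le_of_eq ?_)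
            push_cast
            ring
        _ = (2 / 5) * N * (1 - 1 / (m + 1)) := by
            rw [← Finset.mul_sum, sum_inv_mul_succ]
        _ ≤ (2 / 5) * N := by
            have : (0 : ℝ) ≤ 1 / ((m : ℝ) + 1) := by positivity
            nlinarith
    linarith
  have hXn : (7 / 100) * N * (Real.log ((m + 1 : ℕ) + 2) - 1) ≤ ‖X‖ := by
    have h1 : -X.im ≤ ‖X‖ := (neg_le_abs _).trans (Complex.abs_im_le_norm X)
    refine le_trans ?_ h1
    rw [hX, Complex.im_sum, ← Finset.sum_neg_distrib]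
    have h2 := log_le_sum (m + 1)
    calc (7 / 100) * N * (Real.log ((m + 1 : ℕ) + 2) - 1)
        ≤ (7 / 100) * N * ∑ a ∈ range (m + 1), (1 : ℝ) / (a + 2) :=
          mul_le_mul_of_nonneg_left h2 (by positivity)
      _ = ∑ a ∈ range (m + 1), (7 / 100) * N * (1 / ((a : ℝ) + 2)) := by rw [Finset.mul_sum]
      _ ≤ ∑ a ∈ range (m + 1), -(E (-(((a + 1 : ℕ) : ℝ) * ξ)) * c (a + 1)).im := by
          apply Finset.sum_le_sum
          intro a ha
          rw [Finset.mem_range] at ha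
          have ha2 : (a : ℝ) + 1 ≤ m + 1 := by
            have : a ≤ m := by omega
            have : (a : ℝ) ≤ m := by exact_mod_cast this
            linarith
          have hpos : 0 < θ (a + 1) := by
            have := hθlow (a + 1)
            have h3 : (0 : ℝ) < ((a + 1 : ℕ) : ℝ) / N := by positivity
            linarith
          have h3 := im_main (s := ((a + 1 : ℕ) : ℝ) * ξ) (θ := θ (a + 1)) (by positivity)
            (by
              push_cast
              have h4 : ((a : ℝ) + 1) * ξ ≤ ((a : ℝ) + 1) * (1 / N) := by gcongr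
              refine h4.trans ?_
              rw [mul_one_div, div_le_iff₀ hNpos]
              linarith) hpos ((hθ8 (a + 1) (by omega)).trans (by norm_num))
          refine le_trans ?_ h3
          have h5 : (7 / 100 : ℝ) * N * (1 / ((a : ℝ) + 2)) = (7 / 100) / (((a : ℝ) + 2) / N) := by
            field_simp
          rw [h5]
          apply div_le_div_of_nonneg_left (by norm_num) hpos
          have := hθup (a + 1)
          push_cast at this
          have h6 : (a : ℝ) + 1 + 1 = a + 2 := by ring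
          rw [h6] at this
          exact this
  have htri : ‖X‖ - ‖Y‖ - ‖Z‖ ≤ ‖X - Y + Z‖ := by
    have h1 : X = (X - Y + Z) + Y - Z := by ring
    have h2 : ‖X‖ ≤ ‖X - Y + Z‖ + ‖Y‖ + ‖Z‖ := by
      calc ‖X‖ = ‖(X - Y + Z) + Y - Z‖ := by rw [← h1]
        _ ≤ ‖(X - Y + Z) + Y‖ + ‖Z‖ := norm_sub_le _ _
        _ ≤ ‖X - Y + Z‖ + ‖Y‖ + ‖Z‖ := by
          have := norm_add_le (X - Y + Z) Y
          linarith
    linarith
  have hfin : N * ((7 / 100) * (Real.log ((m + 1 : ℕ) + 2) - 1) - 1 - 1 / ρ) ≤ ‖X - Y + Z‖ := by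
    refine le_trans ?_ htri
    have : (N : ℝ) * ((7 / 100) * (Real.log ((m + 1 : ℕ) + 2) - 1) - 1 - 1 / ρ) =
      (7 / 100) * N * (Real.log ((m + 1 : ℕ) + 2) - 1) - N / ρ - N := by ring
    rw [this]
    linarith
  rw [one_div_mul_eq_div, le_div_iff₀ hNpos]
  linarith

end Pool.Agent.W780.FA
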