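import Mathlib

set_option autoImplicit false

/-!
Multiple Fourier series on `(ℝ / 2πℤ)^d`: characters, coefficients, rectangular partial sums,
the `L^p` modulus of continuity.
-/

namespace Pool.Agent.W780.FA

open MeasureTheory Filter Topology ENNReal

instance twoPiFact : Fact (0 < 2 * Real.pi) := ⟨Real.two_pi_pos⟩

/-- The torus `(ℝ / 2πℤ)^d`. -/
abbrev Torus (d : ℕ) : Type := Fin d → AddCircle (2 * Real.pi)

/-- Normalised Lebesgue measure on `(ℝ / 2πℤ)^d`. -/
noncomputable def torusMeasure (d : ℕ) : Measure (Torus d) :=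
  Measure.pi fun _ => (AddCircle.haarAddCircle : Measure (AddCircle (2 * Real.pi)))

/-- The character `x ↦ exp (i k·x)`. -/
noncomputable def character {d : ℕ} (k : Fin d → ℤ) (x : Torus d) : ℂ :=
  ∏ j, fourier (k j) (x j)

/-- The Fourier coefficient of `f` at the frequency `k`. -/
noncomputable def fourierCoefficient {d : ℕ} (f : Torus d → ℂ) (k : Fin d → ℤ) : ℂ :=
  ∫ x, f x * (starRingEnd ℂ) (character k x) ∂(torusMeasure d)

/-- The rectangular partial sum `S_n f (x)`, the sum over `|k_j| ≤ n_j` for all `j`. -/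
noncomputable def partialSum {d : ℕ} (f : Torus d → ℂ) (n : Fin d → ℕ) (x : Torus d) : ℂ :=
  ∑ k ∈ Fintype.piFinset (fun j => Finset.Icc (-(n j : ℤ)) (n j : ℤ)),
    fourierCoefficient f k * character k x

/-- The rectangular Fourier sums of `f` converge at `x` in the sense of Pringsheim. -/
def PringsheimConvergesAt {d : ℕ} (f : Torus d → ℂ) (x : Torus d) : Prop :=
  ∃ L : ℂ, Tendsto (fun n : Fin d → ℕ => partialSum f n x) atTop (𝓝 L)

/-- The class in `(ℝ / 2πℤ)^d` of a vector of `ℝ^d`. -/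
noncomputable def toTorus {d : ℕ} (h : EuclideanSpace ℝ (Fin d)) : Torus d :=
  fun j => ((h j : ℝ) : AddCircle (2 * Real.pi))

/-- The `L^p` modulus of continuity `ω(δ, f)_p`. -/
noncomputable def modulus {d : ℕ} (p : ℝ≥0∞) (f : Torus d → ℂ) (δ : ℝ) : ℝ≥0∞ :=
  ⨆ h : EuclideanSpace ℝ (Fin d), ⨆ _ : ‖h‖ ≤ δ,
    eLpNorm (fun x => f (x + toTorus h) - f x) p (torusMeasure d)

/-- The hypothesis `ω(δ, f)_p (log (1/δ))^{d/p} log log log (e^{e^e}/δ) → 0` as `δ → 0+`. -/
def ModulusCondition (d : ℕ) (p : ℝ) (f : Torus d → ℂ) : Prop :=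
  Tendsto (fun δ : ℝ => modulus (ENNReal.ofReal p) f δ * ENNReal.ofReal
      (Real.log (1 / δ) ^ ((d : ℝ) / p) *
        Real.log (Real.log (Real.log (Real.exp (Real.exp (Real.exp 1)) / δ)))))
    (𝓝[>] 0) (𝓝 0)

end Pool.Agent.W780.FA
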