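import Pool.Agent.W780.FA.Block

set_option autoImplicit false

/-!
Differences of rectangular partial sums.
-/

namespace Pool.Agent.W780.FA

open MeasureTheory Filter Topology ENNReal AddCircle

/-- Index box. -/
noncomputable def box (n : Fin 2 → ℕ) : Finset (Fin 2 → ℤ) :=
  Fintype.piFinset (fun j => Finset.Icc (-(n j : ℤ)) (n j : ℤ))

lemma mem_box {n : Fin 2 → ℕ} {k : Fin 2 → ℤ} :
    k ∈ box n ↔ (-(n 0 : ℤ) ≤ k 0 ∧ k 0 ≤ n 0) ∧ (-(n 1 : ℤ) ≤ k 1 ∧ k 1 ≤ n 1) := by
  unfold box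
  rw [Fintype.mem_piFinset, Fin.forall_fin_two]
  simp [Finset.mem_Icc]

/-- The index `(N + m₀, N + n₀)`. -/
def idx (N m₀ n₀ : ℕ) : Fin 2 → ℕ := ![N + m₀, N + n₀]

@[simp] lemma idx_zero (N m₀ n₀ : ℕ) : idx N m₀ n₀ 0 = N + m₀ := rfl
@[simp] lemma idx_one (N m₀ n₀ : ℕ) : idx N m₀ n₀ 1 = N + n₀ := rfl

/-- The index `(N - 1, N - 1)`. -/
def idx' (N : ℕ) : Fin 2 → ℕ := ![N - 1, N - 1]

@[simp] lemma idx'_zero (N : ℕ) : idx' N 0 = N - 1 := rfl
@[simp] lemma idx'_one (N : ℕ) : idx' N 1 = N - 1 := rfl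

/-- The corner box in a block. -/
noncomputable def corner (N K m₀ n₀ : ℕ) : Finset (Fin 2 → ℤ) :=
  Fintype.piFinset ![Finset.Icc ((N + K : ℕ) : ℤ) ((N + m₀ : ℕ) : ℤ),
    Finset.Icc (N : ℤ) ((N + n₀ : ℕ) : ℤ)]

lemma mem_corner {N K m₀ n₀ : ℕ} {k : Fin 2 → ℤ} : k ∈ corner N K m₀ n₀ ↔
    (((N + K : ℕ) : ℤ) ≤ k 0 ∧ k 0 ≤ ((N + m₀ : ℕ) : ℤ)) ∧
      ((N : ℤ) ≤ k 1 ∧ k 1 ≤ ((N + n₀ : ℕ) : ℤ)) := by
  unfold corner
  rw [Fintype.mem_piFinset, Fin.forall_fin_two]
  simp [Finset.mem_Icc]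

lemma Data.partialSum_sub (D : Data) (j : ℕ) {m₀ n₀ : ℕ} (hm : m₀ < D.K j + D.W j)
    (hn : n₀ < NN j) (x : Torus 2) :
    partialSum D.F (idx (NN j) m₀ n₀) x - partialSum D.F (idx' (NN j)) x =
      (D.A j : ℂ) * ∑ k ∈ corner (NN j) (D.K j) m₀ n₀, blockCoeff (NN j) k * character k x := by
  classical
  have hN := NN_pos j
  have hsub : box (idx' (NN j)) ⊆ box (idx (NN j) m₀ n₀) := by
    intro k hk
    rw [mem_box] at *
    simp only [idx_zero, idx_one, idx'_zero, idx'_one] at *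
    push_cast at *
    omega
  have h1 : partialSum D.F (idx (NN j) m₀ n₀) x - partialSum D.F (idx' (NN j)) x =
      ∑ k ∈ box (idx (NN j) m₀ n₀) \ box (idx' (NN j)), fourierCoefficient D.F k * character k x := by
    rw [sub_eq_iff_eq_add]
    exact (Finset.sum_sdiff hsub).symm
  rw [h1]
  have hKW := D.hKW j
  have hcorner : ∀ k ∈ corner (NN j) (D.K j) m₀ n₀, k ∈ blockSet (NN j) (D.K j) (D.W j) := by
    intro k hk
    rw [mem_corner] at hk
    rw [mem_blockSet]
    push_cast at *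
    omega
  have h2 : corner (NN j) (D.K j) m₀ n₀ ⊆ box (idx (NN j) m₀ n₀) \ box (idx' (NN j)) := by
    intro k hk
    rw [mem_corner] at hk
    rw [Finset.mem_sdiff, mem_box, mem_box]
    simp only [idx_zero, idx_one, idx'_zero, idx'_one]
    push_cast at *
    omega
  rw [← Finset.sum_subset h2]
  · rw [Finset.mul_sum]
    apply Finset.sum_congr rfl
    intro k hk
    rw [D.fourierCoefficient_mem (hcorner k hk)]
    ring
  · intro k hk hk2
    rw [Finset.mem_sdiff, mem_box, mem_box] at hk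
    rw [D.fourierCoefficient_not_mem, zero_mul]
    intro i hi
    rw [mem_blockSet] at hi
    rw [mem_corner] at hk2
    have hNi := NN_pos i
    have hKWi := D.hKW i
    simp only [idx_zero, idx_one, idx'_zero, idx'_one] at hk
    rcases lt_trichotomy i j with h | h | h
    · have h3 := two_mul_NN_le h
      apply hk.2
      push_cast at *
      omega
    · subst h
      apply hk2
      push_cast at *
      omega
    · have h3 := two_mul_NN_le h
      push_cast at *
      omega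

lemma character_E {x' y' : ℝ} {x : Torus 2}
    (hx0 : x 0 = ((2 * Real.pi * x' : ℝ) : AddCircle (2 * Real.pi)))
    (hx1 : x 1 = ((2 * Real.pi * y' : ℝ) : AddCircle (2 * Real.pi))) (k : Fin 2 → ℤ) :
    character k x = E (k 0 * x' + k 1 * y') := by
  have hx : x = fun j => ((![2 * Real.pi * x', 2 * Real.pi * y'] j : ℝ) : AddCircle (2 * Real.pi)) := by
    funext j
    fin_cases j
    · exact hx0
    · exact hx1
  rw [hx, character_coe, E, Fin.sum_univ_two]
  congr 1
  simp only [Matrix.cons_val_zero, Matrix.cons_val_one]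
  push_cast
  ring

/-- The sum over the corner box is a section of the chirp. -/
lemma norm_corner_sum {N K m₀ n₀ : ℕ} (hN : 0 < N) (hK : K ≤ m₀) (x' y' : ℝ) (x : Torus 2)
    (hx0 : x 0 = ((2 * Real.pi * x' : ℝ) : AddCircle (2 * Real.pi)))
    (hx1 : x 1 = ((2 * Real.pi * y' : ℝ) : AddCircle (2 * Real.pi))) :
    ‖∑ k ∈ corner N K m₀ n₀, blockCoeff N k * character k x‖ =
      (1 / (N : ℝ)) * ‖∑ a ∈ Finset.range (m₀ - K + 1), ∑ b ∈ Finset.range (n₀ + 1),
        E (-(a * (x' - n₀ / N) + b * (y' - m₀ / N) + a * b / N))‖ := by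
  have hN' : (N : ℝ) ≠ 0 := by exact_mod_cast hN.ne'
  have h1 : ∑ k ∈ corner N K m₀ n₀, blockCoeff N k * character k x =
      ∑ p ∈ Finset.range (m₀ - K + 1) ×ˢ Finset.range (n₀ + 1),
        (((1 / N : ℝ) : ℂ) * E (-(m₀ * n₀ / N) + (N + m₀) * x' + (N + n₀) * y')) *
        E (-((p.1 : ℝ) * (x' - n₀ / N) + (p.2 : ℝ) * (y' - m₀ / N) + (p.1 : ℝ) * (p.2 : ℝ) / N)) := by
    apply Finset.sum_nbij' (fun k => ((((N + m₀ : ℕ) : ℤ) - k 0).toNat, (((N + n₀ : ℕ) : ℤ) - k 1).toNat))
      (fun p => ![((N + m₀ : ℕ) : ℤ) - (p.1 : ℤ), ((N + n₀ : ℕ) : ℤ) - (p.2 : ℤ)])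
    · intro k hk
      rw [mem_corner] at hk
      rw [Finset.mem_product, Finset.mem_range, Finset.mem_range]
      push_cast at *
      omega
    · intro p hp
      rw [Finset.mem_product, Finset.mem_range, Finset.mem_range] at hp
      rw [mem_corner]
      simp only [Matrix.cons_val_zero, Matrix.cons_val_one]
      push_cast at *
      omega
    · intro k hk
      rw [mem_corner] at hk
      funext j
      fin_cases j
      · simp only [Fin.zero_eta, Matrix.cons_val_zero]
        push_cast at *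
        omega
      · simp only [Fin.mk_one, Matrix.cons_val_one]
        push_cast at *
        omega
    · intro p hp
      rw [Finset.mem_product, Finset.mem_range, Finset.mem_range] at hp
      simp only [Matrix.cons_val_zero, Matrix.cons_val_one]
      ext <;> simp
    · intro k hk
      rw [mem_corner] at hk
      have e1 : (((((N + m₀ : ℕ) : ℤ) - k 0).toNat : ℕ) : ℝ) = N + m₀ - k 0 := by
        have : (((((N + m₀ : ℕ) : ℤ) - k 0).toNat : ℕ) : ℤ) = ((N + m₀ : ℕ) : ℤ) - k 0 :=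
          Int.toNat_of_nonneg (by omega)
        have h := congrArg (fun z : ℤ => (z : ℝ)) this
        push_cast at h
        simpa using h
      have e2 : (((((N + n₀ : ℕ) : ℤ) - k 1).toNat : ℕ) : ℝ) = N + n₀ - k 1 := by
        have : (((((N + n₀ : ℕ) : ℤ) - k 1).toNat : ℕ) : ℤ) = ((N + n₀ : ℕ) : ℤ) - k 1 :=
          Int.toNat_of_nonneg (by omega)
        have h := congrArg (fun z : ℤ => (z : ℝ)) this
        push_cast at h
        simpa using h
      simp only
      rw [e1, e2, character_E hx0 hx1, blockCoeff, mul_assoc, mul_assoc, ← E_add, ← E_add]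
      congr 2
      field_simp
      ring
  rw [h1, ← Finset.mul_sum, norm_mul, norm_mul, norm_E, mul_one, Complex.norm_real,
    Real.norm_eq_abs, abs_of_nonneg (by positivity), Finset.sum_product]

/-- General lower bound for `‖1 - E (-β)‖`. -/
lemma norm_one_sub_E_ge_min {β : ℝ} (h0 : 0 ≤ β) (h1 : β ≤ 1) :
    4 * min β (1 - β) ≤ ‖1 - E (-β)‖ := by
  rcases le_total β (1 / 2) with h | h
  · refine le_trans ?_ (norm_one_sub_E_ge h0 h)
    have := min_le_left β (1 - β)
    linarith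
  · have h2 := norm_one_sub_E_ge (θ := 1 - β) (by linarith) (by linarith)
    have h3 : ‖1 - E (-(1 - β))‖ = ‖1 - E (-β)‖ := by
      have e1 : E (-(1 - β)) = E β := by
        have : -(1 - β) = β + ((-1 : ℤ) : ℝ) := by push_cast; ring
        rw [this, E_add, E_int, mul_one]
      have e2 : 1 - E β = -(E β) * (1 - E (-β)) := by
        have : E β * E (-β) = 1 := by rw [← E_add]; simp
        linear_combination -this
      rw [e1, e2, norm_mul, norm_neg, norm_E, one_mul]
    rw [h3] at h2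
    refine le_trans ?_ h2
    have := min_le_right β (1 - β)
    linarith

end Pool.Agent.W780.FA
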