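import Pool.Agent.W780.FA.Diverge

set_option autoImplicit false

/-!
The concrete data, its modulus of continuity and its divergence.
-/

namespace Pool.Agent.W780.FA

open MeasureTheory Filter Topology ENNReal AddCircle

/-- `q_j = 2 ^ ⌊log₂ j⌋`. -/
def qq (j : ℕ) : ℕ := 2 ^ Nat.log 2 j

lemma qq_pos (j : ℕ) : 0 < qq j := by unfold qq; positivity

lemma log_le_self' (j : ℕ) : Nat.log 2 j ≤ j := Nat.log_le_self 2 j

lemma qq_dvd (j : ℕ) : qq j ∣ NN j := by
  unfold qq NN
  apply pow_dvd_pow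
  exact (Nat.log_le_self 2 j).trans Nat.lt_two_pow_self.le

lemma qq_le {j : ℕ} (hj : 1 ≤ j) : qq j ≤ j := Nat.pow_log_le_self 2 (by omega)

lemma lt_two_mul_qq (j : ℕ) : j < 2 * qq j := by
  have := Nat.lt_pow_succ_log_self (b := 2) (by norm_num) j
  unfold qq
  rw [pow_succ] at this
  omega

lemma sixteen_le_qq {j : ℕ} (hj : 16 ≤ j) : 16 ≤ qq j := by
  unfold qq
  have : 4 ≤ Nat.log 2 j := by
    apply Nat.le_log_of_pow_le (by norm_num)
    omega
  calc 16 = 2 ^ 4 := by norm_num
    _ ≤ 2 ^ Nat.log 2 j := Nat.pow_le_pow_right (by norm_num) this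

/-- Left end of the window. -/
def dK (j : ℕ) : ℕ := if j < 16 then 0 else (j - qq j - 1) * (NN j / qq j)

/-- Width of the window. -/
def dW (j : ℕ) : ℕ := if j < 16 then 0 else 2 * (NN j / qq j)

/-- Amplitude. -/
noncomputable def dA (j : ℕ) : ℝ := if j < 16 then 0 else (Nat.log 2 j : ℝ) / 2 ^ j

/-- Normalised `L²` size. -/
noncomputable def dc (j : ℕ) : ℝ := if j < 16 then 0 else (Nat.log 2 j : ℝ) * Real.sqrt (2 / qq j)

lemma dc_nonneg (j : ℕ) : 0 ≤ dc j := by
  unfold dc
  split_ifs <;> positivity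

lemma dA_nonneg (j : ℕ) : 0 ≤ dA j := by
  unfold dA
  split_ifs <;> positivity

lemma dKW (j : ℕ) : dK j + dW j ≤ NN j := by
  unfold dK dW
  split_ifs with h
  · exact Nat.zero_le _
  · push Not at h
    have h1 := sixteen_le_qq h
    have h2 := lt_two_mul_qq j
    have h3 : NN j = qq j * (NN j / qq j) := (Nat.mul_div_cancel' (qq_dvd j)).symm
    calc (j - qq j - 1) * (NN j / qq j) + 2 * (NN j / qq j)
        = (j - qq j - 1 + 2) * (NN j / qq j) := by ring
      _ ≤ qq j * (NN j / qq j) := Nat.mul_le_mul_right _ (by omega)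
      _ = NN j := h3.symm

lemma dA_sqrt (j : ℕ) : dA j * Real.sqrt ((dW j : ℝ) / NN j) = dc j / 2 ^ j := by
  unfold dA dW dc
  split_ifs with h
  · simp
  · have hN : (0 : ℝ) < NN j := by exact_mod_cast NN_pos j
    have hq : (0 : ℝ) < qq j := by exact_mod_cast qq_pos j
    have h1 : ((2 * (NN j / qq j) : ℕ) : ℝ) / NN j = 2 / qq j := by
      rw [Nat.cast_mul, Nat.cast_div (qq_dvd j) hq.ne']
      push_cast
      field_simp
    rw [h1]
    ring

lemma tendsto_natLog : Tendsto (fun j : ℕ => Nat.log 2 j) atTop atTop := by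
  rw [tendsto_atTop_atTop]
  intro b
  refine ⟨2 ^ b, fun a ha => ?_⟩
  exact Nat.le_log_of_pow_le (by norm_num) ha

lemma tendsto_g : Tendsto (fun r : ℕ => (r : ℝ) * Real.sqrt (2 / 2 ^ r) * (r + 2)) atTop (𝓝 0) := by
  set s := Real.sqrt (1 / 2) with hs
  have hs0 : 0 ≤ s := Real.sqrt_nonneg _
  have hs1 : |s| < 1 := by
    rw [abs_of_nonneg hs0, hs, Real.sqrt_lt' one_pos]
    norm_num
  have h1 := tendsto_pow_const_mul_const_pow_of_abs_lt_one 2 hs1
  have h2 := tendsto_pow_const_mul_const_pow_of_abs_lt_one 1 hs1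
  have h3 := ((h1.add (h2.const_mul 2)).const_mul (Real.sqrt 2))
  simp only [mul_zero, add_zero] at h3
  refine h3.congr (fun r => ?_)
  have h4 : Real.sqrt (2 / 2 ^ r) = Real.sqrt 2 * s ^ r := by
    rw [hs, div_eq_mul_one_div, Real.sqrt_mul (by norm_num)]
    congr 1
    rw [← one_div_pow, Real.sqrt_eq_iff_mul_self_eq (by positivity) (by positivity), ← mul_pow,
      Real.mul_self_sqrt (by norm_num)]
  rw [h4]
  ring

lemma dc_tendsto : Tendsto (fun j : ℕ => dc j * Real.log (j + 2)) atTop (𝓝 0) := by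
  refine squeeze_zero (fun j => ?_) (fun j => ?_) (tendsto_g.comp tendsto_natLog)
  · have := dc_nonneg j
    have : 0 ≤ Real.log ((j : ℝ) + 2) := Real.log_nonneg (by
      have : (0 : ℝ) ≤ j := by positivity
      linarith)
    positivity
  · simp only [Function.comp]
    have h1 : dc j ≤ (Nat.log 2 j : ℝ) * Real.sqrt (2 / 2 ^ Nat.log 2 j) := by
      unfold dc qq
      split_ifs
      · positivity
      · push_cast
        exact le_rfl
    have h2 : Real.log ((j : ℝ) + 2) ≤ Nat.log 2 j + 2 := by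
      have h3 : j + 2 ≤ 2 ^ (Nat.log 2 j + 2) := by
        have := lt_two_mul_qq j
        have h4 := qq_pos j
        unfold qq at this h4
        rw [pow_add]
        omega
      have h5 : Real.log ((j : ℝ) + 2) ≤ Real.log ((2 : ℝ) ^ (Nat.log 2 j + 2)) := by
        apply Real.log_le_log (by positivity)
        exact_mod_cast h3
      refine h5.trans ?_
      rw [Real.log_pow]
      push_cast
      have h6 : Real.log 2 ≤ 1 := by
        have := Real.log_two_lt_d9
        linarith
      have h7 : (0 : ℝ) ≤ (Nat.log 2 j : ℝ) + 2 := by positivity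
      nlinarith
    apply mul_le_mul h1 h2 _ (by positivity)
    exact Real.log_nonneg (by
      have : (0 : ℝ) ≤ j := by positivity
      linarith)

lemma bounded_of_tendsto (c : ℕ → ℝ) (hc0 : ∀ j, 0 ≤ c j)
    (hc : Tendsto (fun j : ℕ => c j * Real.log (j + 2)) atTop (𝓝 0)) : ∃ B : ℝ, ∀ j, c j ≤ B := by
  obtain ⟨B, hB⟩ := hc.bddAbove_range
  refine ⟨B / Real.log 2, fun j => ?_⟩
  have h1 : c j * Real.log (j + 2) ≤ B := hB ⟨j, rfl⟩
  have hl2 : 0 < Real.log 2 := Real.log_pos (by norm_num)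
  have h2 : Real.log 2 ≤ Real.log ((j : ℝ) + 2) :=
    Real.log_le_log (by norm_num) (by
      have : (0 : ℝ) ≤ j := by positivity
      linarith)
  rw [le_div_iff₀ hl2]
  exact (mul_le_mul_of_nonneg_left h2 (hc0 j)).trans h1

lemma dA_summable : Summable (fun j => dA j * Real.sqrt ((dW j : ℝ) / NN j)) := by
  obtain ⟨B, hB⟩ := bounded_of_tendsto dc dc_nonneg dc_tendsto
  have hgeom : Summable (fun j : ℕ => (1 / 2 : ℝ) ^ j) := summable_geometric_two
  refine Summable.of_nonneg_of_le (fun j => ?_) (fun j => ?_) (hgeom.mul_left B)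
  · have := dA_nonneg j
    positivity
  · rw [dA_sqrt]
    calc dc j / 2 ^ j ≤ B / 2 ^ j := div_le_div_of_nonneg_right (hB j) (by positivity)
      _ = B * (1 / 2) ^ j := by
        rw [one_div, inv_pow]
        ring

/-- The data of the counterexample. -/
noncomputable def theData : Data where
  K := dK
  W := dW
  A := dA
  hKW := dKW
  hA := dA_nonneg
  hs := dA_summable

theorem theData_modulus : ModulusCondition 2 2 theData.F := by
  unfold ModulusCondition
  have h := asymp dc dc_nonneg dc_tendsto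
  have h2 := (ENNReal.tendsto_ofReal h)
  rw [ENNReal.ofReal_zero] at h2
  refine tendsto_of_tendsto_of_tendsto_of_le_of_le' tendsto_const_nhds h2
    (Eventually.of_forall fun _ => bot_le) ?_
  filter_upwards [self_mem_nhdsWithin] with δ hδ
  have hδ0 : (0 : ℝ) < δ := hδ
  have h3 := theData.modulus_le hδ0.le
  have h4 : (fun j => theData.A j * Real.sqrt ((theData.W j : ℝ) / NN j) *
      min 2 (4 * (NN j : ℝ) * δ)) = fun j => dc j / 2 ^ j * min 2 (4 * (NN j : ℝ) * δ) := by
    funext j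
    have := dA_sqrt j
    change dA j * Real.sqrt ((dW j : ℝ) / NN j) * _ = _
    rw [this]
  rw [h4] at h3
  have h5 : (0 : ℝ) ≤ ∑' j : ℕ, dc j / 2 ^ j * min 2 (4 * (NN j : ℝ) * δ) := by
    apply tsum_nonneg
    intro j
    have := dc_nonneg j
    have : 0 ≤ min 2 (4 * (NN j : ℝ) * δ) := le_min (by norm_num) (by positivity)
    positivity
  have h6 : ENNReal.ofReal 2 = 2 := by simp
  rw [h6, ENNReal.ofReal_mul h5]
  have h7 : ((2 : ℕ) : ℝ) / 2 = 1 := by norm_num
  rw [h7, Real.rpow_one]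
  exact mul_le_mul_left h3 _

/-- Large differences of partial sums. -/
theorem big_step {x' y' : ℝ} (hx : 0 < x') (hx1 : x' < 1) (hy : 0 < y') (hy1 : y' < 1) {x : Torus 2}
    (hx0 : x 0 = ((2 * Real.pi * x' : ℝ) : AddCircle (2 * Real.pi)))
    (hx1' : x 1 = ((2 * Real.pi * y' : ℝ) : AddCircle (2 * Real.pi))) {r : ℕ} (hr4 : 4 ≤ r)
    (hry : 1 / y' ≤ 2 ^ r) (hrx : 2 / (1 - x') ≤ 2 ^ r) :
    ∃ n n' : Fin 2 → ℕ, (∀ j, 2 ^ r ≤ n j) ∧ (∀ j, 2 ^ r ≤ n' j) ∧
      (24 / 1000) * (r : ℝ) - (2 + 1 / (4 * min x' ((1 - x') / 2))) ≤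
        ‖partialSum theData.F n x - partialSum theData.F n' x‖ := by
  set q : ℕ := 2 ^ r with hq
  have hqr : (q : ℝ) = 2 ^ r := by rw [hq]; push_cast; rfl
  have hq16 : 16 ≤ q := by
    calc 16 = 2 ^ 4 := by norm_num
      _ ≤ 2 ^ r := Nat.pow_le_pow_right (by norm_num) hr4
  have hqpos : (0 : ℝ) < q := by positivity
  set i : ℕ := ⌊(q : ℝ) * y'⌋₊ with hi
  have hi1 : 1 ≤ i := by
    rw [hi, Nat.one_le_floor_iff, hqr]
    rw [div_le_iff₀ hy] at hry
    exact hry
  have hi2 : i < q := by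
    rw [hi, Nat.floor_lt (by positivity)]
    nlinarith
  set j : ℕ := q + i with hj
  have hlog : Nat.log 2 j = r := by
    apply Nat.log_eq_of_pow_le_of_lt_pow
    · omega
    · rw [pow_succ]; omega
  have hqq : qq j = q := by unfold qq; rw [hlog]
  have hj16 : ¬ j < 16 := by omega
  set N : ℕ := NN j with hN
  set P : ℕ := N / q with hP
  have hNP : N = q * P := by
    rw [hP, ← hqq]
    exact (Nat.mul_div_cancel' (qq_dvd j)).symm
  have hNpos : 0 < N := NN_pos j
  have hNR : (0 : ℝ) < N := by exact_mod_cast hNpos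
  have hPpos : 0 < P := by
    rcases Nat.eq_zero_or_pos P with h | h
    · rw [h, mul_zero] at hNP; omega
    · exact h
  have hPeq : P = 2 ^ (2 ^ j - r) := by
    have h1 : r ≤ 2 ^ j := by
      have : r < 2 ^ r := Nat.lt_two_pow_self
      have h2 : j < 2 ^ j := Nat.lt_two_pow_self
      omega
    have h2 : q * 2 ^ (2 ^ j - r) = N := by
      rw [hq, hN, ← pow_add, Nat.add_sub_cancel' h1, NN]
    have h3 : q * P = q * 2 ^ (2 ^ j - r) := by rw [h2, ← hNP]
    exact Nat.eq_of_mul_eq_mul_left (by omega) h3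
  have hK : theData.K j = (i - 1) * P := by
    change dK j = _
    unfold dK
    rw [if_neg hj16, hqq]
    congr 1
    omega
  have hW : theData.W j = 2 * P := by
    change dW j = _
    unfold dW
    rw [if_neg hj16, hqq]
  have hA : theData.A j = (r : ℝ) / 2 ^ j := by
    change dA j = _
    unfold dA
    rw [if_neg hj16, hlog]
  set m₀ : ℕ := ⌊(N : ℝ) * y'⌋₊ with hm₀
  set n₀ : ℕ := ⌊(N : ℝ) * x'⌋₊ with hn₀
  have hm1 : (m₀ : ℝ) ≤ N * y' := Nat.floor_le (by positivity)
  have hm2 : (N : ℝ) * y' < m₀ + 1 := Nat.lt_floor_add_one _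
  have hn1 : (n₀ : ℝ) ≤ N * x' := Nat.floor_le (by positivity)
  have hn2 : (N : ℝ) * x' < n₀ + 1 := Nat.lt_floor_add_one _
  have hi3 : (i : ℝ) ≤ q * y' := Nat.floor_le (by positivity)
  have hi4 : (q : ℝ) * y' < i + 1 := Nat.lt_floor_add_one _
  have hPR : (0 : ℝ) < P := by exact_mod_cast hPpos
  have hNPR : (N : ℝ) = q * P := by rw [hNP]; push_cast; ring
  have hmlow : i * P ≤ m₀ := by
    rw [hm₀]
    apply Nat.le_floor
    push_cast
    rw [hNPR]
    nlinarith
  have hmup : m₀ < (i + 1) * P := by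
    have : (m₀ : ℝ) < (((i + 1) * P : ℕ) : ℝ) := by
      push_cast
      refine lt_of_le_of_lt hm1 ?_
      rw [hNPR]
      nlinarith
    exact_mod_cast this
  have hiP : i * P = (i - 1) * P + P := by
    obtain ⟨i', hi'⟩ : ∃ i', i = i' + 1 := ⟨i - 1, by omega⟩
    rw [hi']
    simp only [Nat.add_sub_cancel]
    ring
  have hiP2 : (i + 1) * P = (i - 1) * P + 2 * P := by
    rw [add_mul, one_mul, hiP]
    ring
  have hn0N : n₀ < N := by
    rw [hn₀, Nat.floor_lt (by positivity)]
    nlinarith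
  have hdiff := theData.partialSum_sub j (m₀ := m₀) (n₀ := n₀) (by rw [hK, hW]; omega) hn0N x
  have hKm : theData.K j ≤ m₀ := by rw [hK]; omega
  refine ⟨idx N m₀ n₀, idx' N, ?_, ?_, ?_⟩
  · have h2 : q ≤ N := by rw [hNP]; exact Nat.le_mul_of_pos_right q hPpos
    rw [Fin.forall_fin_two]
    simp only [idx_zero, idx_one]
    omega
  · have h2 : q < N := by
      have h3 : 2 ≤ P := by
        rw [hPeq]
        have h4 : r + 1 ≤ 2 ^ j := by
          have : r < 2 ^ r := Nat.lt_two_pow_self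
          have h2 : j < 2 ^ j := Nat.lt_two_pow_self
          omega
        calc 2 = 2 ^ 1 := by norm_num
          _ ≤ 2 ^ (2 ^ j - r) := Nat.pow_le_pow_right (by norm_num) (by omega)
      rw [hNP]
      nlinarith
    rw [Fin.forall_fin_two]
    simp only [idx'_zero, idx'_one]
    omega
  · rw [hdiff, norm_mul, Complex.norm_real, Real.norm_eq_abs, abs_of_nonneg (theData.hA j),
      norm_corner_sum hNpos hKm x' y' x hx0 hx1']
    set ρ : ℝ := 4 * min x' ((1 - x') / 2) with hρ
    have hρ0 : 0 < ρ := by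
      have : 0 < min x' ((1 - x') / 2) := lt_min hx (by linarith)
      positivity
    have hN1 : 1 / (N : ℝ) ≤ (1 - x') / 2 := by
      rw [div_le_iff₀ (by linarith)] at hrx
      rw [div_le_iff₀ hNR]
      have h1 : (2 : ℝ) ^ r ≤ N := by
        rw [← hqr, hNPR]
        have : (1 : ℝ) ≤ P := by exact_mod_cast hPpos
        nlinarith
      nlinarith
    have hcore := core (N := N) (L := n₀) (M := m₀ - theData.K j) (ξ := x' - n₀ / N)
      (η := y' - m₀ / N) (ρ := ρ) ?_ hn0N ?_ ?_ ?_ ?_ ?_ hρ0 ?_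
    · have hM : P ≤ m₀ - theData.K j := by rw [hK]; omega
      have hlogP : (345 / 1000 : ℝ) * 2 ^ j ≤ Real.log (((m₀ - theData.K j : ℕ) : ℝ) + 2) := by
        have h1 : Real.log (P : ℝ) ≤ Real.log (((m₀ - theData.K j : ℕ) : ℝ) + 2) := by
          apply Real.log_le_log hPR
          have : (P : ℝ) ≤ ((m₀ - theData.K j : ℕ) : ℝ) := by exact_mod_cast hM
          linarith
        refine le_trans ?_ h1
        rw [hPeq]
        push_cast
        rw [Real.log_pow]
        have h2 : r ≤ 2 ^ (j - 1) := by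
          have h3 : j - 1 < 2 ^ (j - 1) := Nat.lt_two_pow_self
          have h4 : r < 2 ^ r := Nat.lt_two_pow_self
          omega
        have h3 : 2 ^ j = 2 * 2 ^ (j - 1) := by
          rw [← pow_succ']
          congr 1
          omega
        have h4 : 2 ^ (j - 1) ≤ 2 ^ j - r := by omega
        have h5 : ((2 ^ (j - 1) : ℕ) : ℝ) ≤ ((2 ^ j - r : ℕ) : ℝ) := by exact_mod_cast h4
        have h6 : (2 : ℝ) ^ j = 2 * ((2 ^ (j - 1) : ℕ) : ℝ) := by
          push_cast
          exact_mod_cast h3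
        have h7 : (69 / 100 : ℝ) ≤ Real.log 2 := by
          have := Real.log_two_gt_d9
          linarith
        rw [h6]
        have h8 : (0 : ℝ) ≤ ((2 ^ (j - 1) : ℕ) : ℝ) := by positivity
        nlinarith
      have hb : (24 / 1000 : ℝ) * 2 ^ j - (2 + 1 / ρ) ≤
          7 / 100 * (Real.log (((m₀ - theData.K j : ℕ) : ℝ) + 2) - 1) - 1 - 1 / ρ := by
        have : (0 : ℝ) < 2 ^ j := by positivity
        nlinarith
      have hC : 0 ≤ 2 + 1 / ρ := by positivity
      have hrj : (r : ℝ) ≤ 2 ^ j := by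
        have h4 : r < 2 ^ r := Nat.lt_two_pow_self
        have h5 : j < 2 ^ j := Nat.lt_two_pow_self
        have : r ≤ 2 ^ j := by omega
        exact_mod_cast this
      calc (24 / 1000) * (r : ℝ) - (2 + 1 / ρ)
          ≤ (24 / 1000) * (r : ℝ) - (2 + 1 / ρ) * (r / 2 ^ j) := by
            have : (r : ℝ) / 2 ^ j ≤ 1 := by
              rw [div_le_one (by positivity)]
              exact hrj
            nlinarith
        _ = theData.A j * ((24 / 1000 : ℝ) * 2 ^ j - (2 + 1 / ρ)) := by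
            rw [hA]
            field_simp
        _ ≤ _ := by
            apply mul_le_mul_of_nonneg_left (hb.trans hcore) (theData.hA j)
    · have h2 : q ≤ N := by rw [hNP]; exact Nat.le_mul_of_pos_right q hPpos
      omega
    · have h1 : m₀ - theData.K j + 1 ≤ 2 * P := by rw [hK]; omega
      calc 8 * (m₀ - theData.K j + 1) ≤ 8 * (2 * P) := Nat.mul_le_mul_left _ h1
        _ = 16 * P := by ring
        _ ≤ q * P := Nat.mul_le_mul_right _ hq16
        _ = N := hNP.symm
    · rw [sub_nonneg, div_le_iff₀ hNR]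
      linarith
    · rw [sub_lt_iff_lt_add, ← add_div, lt_div_iff₀ hNR]
      linarith
    · rw [sub_nonneg, div_le_iff₀ hNR]
      linarith
    · rw [sub_lt_iff_lt_add, ← add_div, lt_div_iff₀ hNR]
      linarith
    · have h1 : x' - (n₀ : ℝ) / N + ((n₀ : ℝ) + 1) / N = x' + 1 / N := by ring
      rw [h1]
      have h2 : 0 < 1 / (N : ℝ) := by positivity
      refine le_trans ?_ (norm_one_sub_E_ge_min (by linarith) (by linarith))
      rw [hρ]
      apply mul_le_mul_of_nonneg_left _ (by norm_num)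
      exact min_le_min (by linarith) (by linarith)

end Pool.Agent.W780.FA
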