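import Pool.Agent.W780.FA.Final

set_option autoImplicit false

/-!
Almost everywhere unbounded divergence.
-/

namespace Pool.Agent.W780.FA

open MeasureTheory Filter Topology ENNReal AddCircle

lemma exists_rep {z : AddCircle (2 * Real.pi)} (hz : z ≠ 0) :
    ∃ t : ℝ, 0 < t ∧ t < 1 ∧ z = ((2 * Real.pi * t : ℝ) : AddCircle (2 * Real.pi)) := by
  have hpi := Real.two_pi_pos
  have h1 : ((AddCircle.equivIco (2 * Real.pi) 0 z : ℝ) : AddCircle (2 * Real.pi)) = z :=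
    AddCircle.coe_equivIco
  have h2 := (AddCircle.equivIco (2 * Real.pi) 0 z).2
  rw [Set.mem_Ico] at h2
  generalize (AddCircle.equivIco (2 * Real.pi) 0 z : ℝ) = e at h1 h2
  refine ⟨e / (2 * Real.pi), ?_, ?_, ?_⟩
  · apply div_pos _ hpi
    rcases lt_or_eq_of_le h2.1 with h | h
    · exact h
    · exfalso
      rw [← h] at h1
      exact hz (by rw [← h1]; simp)
  · rw [div_lt_one hpi]
    linarith [h2.2]
  · rw [mul_div_cancel₀ _ hpi.ne', h1]

instance : NullSingletonClass (AddCircle.haarAddCircle : Measure (AddCircle (2 * Real.pi))) := by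
  constructor
  intro z
  have h1 : (volume : Measure (AddCircle (2 * Real.pi))) {z} = 0 := by
    rw [← Metric.closedBall_zero, AddCircle.volume_closedBall]
    simp [Real.two_pi_pos.le]
  rw [AddCircle.volume_eq_smul_haarAddCircle, Measure.smul_apply, smul_eq_mul,
    mul_eq_zero] at h1
  rcases h1 with h | h
  · rw [ENNReal.ofReal_eq_zero] at h
    exact absurd h (not_le.mpr Real.two_pi_pos)
  · exact h

theorem unbounded_at {x : Torus 2} (h0 : x 0 ≠ 0) (h1 : x 1 ≠ 0) (R : ℝ) :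
    ∃ᶠ n : Fin 2 → ℕ in atTop, R < ‖partialSum theData.F n x‖ := by
  obtain ⟨x', hx1, hx2, hx3⟩ := exists_rep h0
  obtain ⟨y', hy1, hy2, hy3⟩ := exists_rep h1
  rw [Filter.frequently_atTop]
  intro a
  set C : ℝ := 2 + 1 / (4 * min x' ((1 - x') / 2)) with hC
  have hpow : Tendsto (fun r : ℕ => (2 : ℝ) ^ r) atTop atTop :=
    tendsto_pow_atTop_atTop_of_one_lt (by norm_num)
  have e1 : ∀ᶠ r : ℕ in atTop, 1 / y' ≤ 2 ^ r := hpow.eventually_ge_atTop _
  have e2 : ∀ᶠ r : ℕ in atTop, 2 / (1 - x') ≤ 2 ^ r := hpow.eventually_ge_atTop _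
  have e3 : ∀ᶠ r : ℕ in atTop, 4 ≤ r := eventually_ge_atTop 4
  have e4 : ∀ᶠ r : ℕ in atTop, 2 * R + C < (24 / 1000) * (r : ℝ) :=
    (tendsto_natCast_atTop_atTop.const_mul_atTop (by norm_num)).eventually_gt_atTop _
  have e5 : ∀ᶠ r : ℕ in atTop, max (a 0) (a 1) ≤ r := eventually_ge_atTop _
  obtain ⟨r, hr1, hr2, hr3, hr4, hr5⟩ := (e1.and (e2.and (e3.and (e4.and e5)))).exists
  obtain ⟨n, n', hn, hn', hb⟩ := big_step hx1 hx2 hy1 hy2 hx3 hy3 hr3 hr1 hr2
  have hr : r ≤ 2 ^ r := Nat.lt_two_pow_self.le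
  have ha : ∀ m : Fin 2 → ℕ, (∀ j, 2 ^ r ≤ m j) → a ≤ m := by
    intro m hm
    rw [Pi.le_def, Fin.forall_fin_two]
    have h2 := hm 0
    have h3 := hm 1
    omega
  by_contra hcon
  push Not at hcon
  have c1 := hcon n (ha n hn)
  have c2 := hcon n' (ha n' hn')
  have c3 := norm_sub_le (partialSum theData.F n x) (partialSum theData.F n' x)
  linarith

theorem not_converges_at {x : Torus 2} (h0 : x 0 ≠ 0) (h1 : x 1 ≠ 0) :
    ¬ PringsheimConvergesAt theData.F x := by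
  rintro ⟨L, hL⟩
  have h2 : ∀ᶠ n : Fin 2 → ℕ in atTop, ‖partialSum theData.F n x‖ < ‖L‖ + 1 :=
    hL.norm.eventually_lt_const (by linarith)
  obtain ⟨n, hn1, hn2⟩ := ((unbounded_at h0 h1 (‖L‖ + 1)).and_eventually h2).exists
  linarith

/-- The main theorem. -/
theorem main : ∃ f : Torus 2 → ℂ, MemLp f (ENNReal.ofReal 2) (torusMeasure 2) ∧
    ModulusCondition 2 2 f ∧
    ∀ᵐ x ∂(torusMeasure 2), ¬ PringsheimConvergesAt f x ∧
      ∀ R : ℝ, ∃ᶠ n : Fin 2 → ℕ in atTop, R < ‖partialSum f n x‖ := by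
  refine ⟨theData.F, ?_, theData_modulus, ?_⟩
  · have : ENNReal.ofReal 2 = 2 := by simp
    rw [this]
    exact Lp.memLp _
  · have h0 : ∀ᵐ x ∂(torusMeasure 2), x 0 ≠ 0 := Measure.ae_eval_ne _ 0 0
    have h1 : ∀ᵐ x ∂(torusMeasure 2), x 1 ≠ 0 := Measure.ae_eval_ne _ 1 0
    filter_upwards [h0, h1] with x hx0 hx1
    exact ⟨not_converges_at hx0 hx1, fun R => unbounded_at hx0 hx1 R⟩

end Pool.Agent.W780.FA
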